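import Pool.Agent.Q163.LE.Sim
import Pool.Agent.R701.LV.Liou

/-!
# Examples of simultaneously Liouville fields
-/

set_option autoImplicit false

namespace Pool.Agent.V8H31.GT

open Pool.Agent.Q163.LE Pool.Agent.R701.LV

theorem sim_mono {F F' : Subfield ℝ} (h : F ≤ F') (hF : SimLiouville F') : SimLiouville F :=
  fun s hs => hF s fun x hx => h (hs x hx)

theorem sim_LL {q : ℕ → ℕ} (hq : ∀ k, 2 ≤ q k) : SimLiouville (LL hq).toSubfield := by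
  classical
  intro s hs w q0
  obtain ⟨h, hh⟩ := common (ι := s) (fun x => (x : ℝ)) (fun x => hs x x.2)
  obtain ⟨m, hm⟩ : ∃ m : ℕ, m = q0 + 1 := ⟨_, rfl⟩
  obtain ⟨k₀, hk₀⟩ := hh (h * (w + 1) + m ^ (w + 1))
  obtain ⟨a, b, hb, hbq, hab⟩ := hk₀ k₀ le_rfl
  have hb1 : 1 ≤ b := hb
  have hm1 : 1 ≤ m := by omega
  refine ⟨m * b, ?_, Nat.mul_pos hm1 hb, fun x hx => ⟨m * a ⟨x, hx⟩, ?_⟩⟩
  · calc q0 ≤ m := by omega
      _ = m * 1 := (mul_one m).symm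
      _ ≤ m * b := Nat.mul_le_mul_left m hb1
  · obtain ⟨Q, hQ⟩ : ∃ Q : ℝ, Q = (q k₀ : ℝ) := ⟨_, rfl⟩
    have hQ2 : (2 : ℝ) ≤ Q := by rw [hQ]; exact_mod_cast hq k₀
    have hQ0 : 0 < Q := by linarith
    have hbr : (0 : ℝ) < b := by exact_mod_cast hb
    have hmr : (0 : ℝ) < m := by exact_mod_cast hm1
    have hbQ : (b : ℝ) ≤ Q ^ h := by rw [hQ]; exact_mod_cast hbq
    have h1 := hab ⟨x, hx⟩
    rw [← hQ] at h1
    have h2 : (((m * b : ℕ) : ℝ)) * x - ((m * a ⟨x, hx⟩ : ℤ) : ℝ) =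
        m * b * (x - a ⟨x, hx⟩ / b) := by
      push_cast
      field_simp
    rw [h2, abs_mul, abs_of_pos (by positivity), lt_div_iff₀ (by positivity)]
    have h3 : ((m : ℝ)) ^ (w + 1) < Q ^ (m ^ (w + 1)) := by
      have h4 : (m ^ (w + 1) : ℕ) < 2 ^ (m ^ (w + 1)) := Nat.lt_two_pow_self
      have h5 : ((m : ℝ)) ^ (w + 1) < 2 ^ (m ^ (w + 1)) := by exact_mod_cast h4
      exact h5.trans_le (pow_le_pow_left₀ (by norm_num) hQ2 _)
    push_cast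
    calc (m : ℝ) * b * |x - a ⟨x, hx⟩ / b| * (m * b) ^ w
        = (m * b) ^ (w + 1) * |x - a ⟨x, hx⟩ / b| := by ring
      _ ≤ (m * b) ^ (w + 1) * (Q ^ (h * (w + 1) + m ^ (w + 1)))⁻¹ := by gcongr
      _ = m ^ (w + 1) * (b : ℝ) ^ (w + 1) * (Q ^ (h * (w + 1) + m ^ (w + 1)))⁻¹ := by
          rw [mul_pow]
      _ ≤ m ^ (w + 1) * (Q ^ h) ^ (w + 1) * (Q ^ (h * (w + 1) + m ^ (w + 1)))⁻¹ := by gcongr
      _ < Q ^ (m ^ (w + 1)) * (Q ^ h) ^ (w + 1) * (Q ^ (h * (w + 1) + m ^ (w + 1)))⁻¹ := by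
          gcongr
      _ = 1 := by
          rw [pow_add Q, pow_mul Q h, mul_comm (Q ^ (m ^ (w + 1)))]
          exact mul_inv_cancel₀ (by positivity)

/-- the fields generated by a Liouville number -/
theorem sim_liouville {ξ : ℝ} (hξ : Liouville ξ) : SimLiouville (Subfield.closure {ξ}) := by
  obtain ⟨q, hq, h⟩ := liouville_apr hξ
  refine sim_mono ?_ (sim_LL hq)
  rw [Subfield.closure_le, Set.singleton_subset_iff]
  exact h

/-- a large example -/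
theorem sim_large : ∃ F : Subfield ℝ, SimLiouville F ∧ Algebra.trdeg ℚ F = Cardinal.continuum := by
  refine ⟨(LL two_le_qL).toSubfield, sim_LL two_le_qL, ?_⟩
  have h := trdeg_eq (LL two_le_qL) fun A => xiL_apr A
  rw [← h]
  congr 1

end Pool.Agent.V8H31.GT
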