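import Pool.Agent.V8H31.GT.M5
import Pool.Agent.N743.SS.PiK

/-!
# The joint measure for a form in `π`, `e` and a Mills ratio
-/

set_option autoImplicit false

namespace Pool.Agent.V8H31.GT

open Pool.Agent.N743.SS Pool.Agent.N743

/-- `a π + b e + c` and `R(x)` -/
theorem pair_form (a b c : ℤ) (ha : a ≠ 0) (x : ℚ) (hx : 0 < x) (ε : ℝ) (hε : 0 < ε) :
    ∃ C : ℝ, 0 < C ∧ ∀ (p r : ℤ) (q s : ℕ), 0 < q → 0 < s →
    C * ((q : ℝ) * (s : ℝ) ^ 2) ^ (-(5 + ε)) ≤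
      max |(a * Real.pi + b * Real.exp 1 + c) - p / q| |mil x - r / s| := by
  obtain ⟨κ, hκ, hmeas⟩ := measG5 x hx ε hε
  obtain ⟨m, n, hm, hn, hmn⟩ := num_den x hx
  have hx' : (0 : ℝ) < x := by exact_mod_cast hx
  have hrel := pi_rel hx'
  obtain ⟨G, hG⟩ : ∃ G : ℝ, G = Gx x := ⟨_, rfl⟩
  obtain ⟨E, hE⟩ : ∃ E : ℝ, E = Real.exp (2 * x) := ⟨_, rfl⟩
  obtain ⟨e, he⟩ : ∃ e : ℝ, e = Real.exp 1 := ⟨_, rfl⟩
  have hE1 : Real.exp (2 * x + 1) = E * e := by rw [Real.exp_add, ← hE, ← he]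
  have hE0 : 0 < E := by rw [hE]; exact Real.exp_pos _
  obtain ⟨u, hu⟩ : ∃ u : ℝ, u = a * Real.pi + b * e + c := ⟨_, rfl⟩
  obtain ⟨v, hv⟩ : ∃ v : ℝ, v = mil x := ⟨_, rfl⟩
  rw [← he, ← hu, ← hv]
  rw [← hv, ← hG, ← hE] at hrel
  rw [← hG, ← hE, hE1] at hmeas
  have hrel2 : x * E * (u - b * e - c) = a * (x * G + v) ^ 2 := by
    rw [hu, ← hrel]; ring
  have hm1 : (1 : ℝ) ≤ m := by exact_mod_cast hm
  have hn1 : (1 : ℝ) ≤ n := by exact_mod_cast hn
  have hu0 := abs_nonneg u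
  have hv0 := abs_nonneg v
  have hG0 := abs_nonneg G
  have ha0 := abs_nonneg (a : ℝ)
  have hb0 := abs_nonneg (b : ℝ)
  have hc0 := abs_nonneg (c : ℝ)
  have hapos : 0 < |(a : ℝ)| := abs_pos.2 (by exact_mod_cast ha)
  obtain ⟨K, hK⟩ : ∃ K : ℝ, K = |(a : ℝ)| * m ^ 2 + 2 * |(a : ℝ)| * m * n * (|v| + 1) +
    |(a : ℝ)| * n ^ 2 * (|v| + 1) ^ 2 + m * n * (|u| + 1 + |(c : ℝ)|) + m * n * |(b : ℝ)| := ⟨_, rfl⟩
  have hK0 : 0 < K := by rw [hK]; positivity
  obtain ⟨W, hW⟩ : ∃ W : ℝ, W = n ^ 2 * (|(a : ℝ)| * (2 * (x * |G|) + 2 * |v| + 1) + x * E) := ⟨_, rfl⟩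
  have hW0 : 0 < W := by rw [hW]; positivity
  refine ⟨min 1 (κ * K ^ (-(4 + ε)) / W), by positivity, fun p r q s hq hs => ?_⟩
  have hq1 : (1 : ℝ) ≤ q := by exact_mod_cast hq
  have hs1 : (1 : ℝ) ≤ s := by exact_mod_cast hs
  have hss : (1 : ℝ) ≤ (s : ℝ) ^ 2 := one_le_pow₀ hs1
  have hqs : (1 : ℝ) ≤ (q : ℝ) * (s : ℝ) ^ 2 := by nlinarith
  have hqs0 : (0 : ℝ) < (q : ℝ) * (s : ℝ) ^ 2 := by linarith
  have hpw : ((q : ℝ) * (s : ℝ) ^ 2) ^ (-(5 + ε)) ≤ 1 := Real.rpow_le_one_of_one_le_of_nonpos hqs (by linarith)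
  have hpw0 : 0 < ((q : ℝ) * (s : ℝ) ^ 2) ^ (-(5 + ε)) := by positivity
  obtain ⟨η, hη⟩ : ∃ η : ℝ, η = max |u - p / q| |v - r / s| := ⟨_, rfl⟩
  have hη1 : |u - p / q| ≤ η := by rw [hη]; exact le_max_left _ _
  have hη2 : |v - r / s| ≤ η := by rw [hη]; exact le_max_right _ _
  have hη0 : 0 ≤ η := (abs_nonneg _).trans hη1
  rw [← hη]
  by_cases hbig : 1 ≤ η
  · refine le_trans ?_ hbig
    have h1 : min 1 (κ * K ^ (-(4 + ε)) / W) ≤ 1 := min_le_left _ _
    have h2 : 0 ≤ min 1 (κ * K ^ (-(4 + ε)) / W) := by positivity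
    nlinarith
  · push Not at hbig
    obtain ⟨P, hP⟩ : ∃ P : ℝ, P = (p : ℝ) / q := ⟨_, rfl⟩
    obtain ⟨R, hR⟩ : ∃ R : ℝ, R = (r : ℝ) / s := ⟨_, rfl⟩
    rw [← hP] at hη1
    rw [← hR] at hη2
    have hpq : |P| ≤ |u| + 1 := by
      have h1 : P = u - (u - P) := by ring
      rw [h1]
      exact (abs_sub _ _).trans (by linarith)
    have hrs : |R| ≤ |v| + 1 := by
      have h1 : R = v - (v - R) := by ring
      rw [h1]
      exact (abs_sub _ _).trans (by linarith)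
    have hP0 := abs_nonneg P
    have hR0 := abs_nonneg R
    obtain ⟨D, hD⟩ : ∃ D : ℝ, D = (q : ℝ) * (s : ℝ) ^ 2 := ⟨_, rfl⟩
    rw [← hD] at hqs0 hpw0 ⊢
    obtain ⟨f, hf⟩ : ∃ f : Fin 5 → ℤ, f = ![a * n ^ 2 * r ^ 2 * q, 2 * a * m * n * r * s * q,
      a * m ^ 2 * (q * s ^ 2), - (m * n * (p - c * q) * s ^ 2), m * n * b * (q * s ^ 2)] := ⟨_, rfl⟩
    have hf0 : (f 0 : ℝ) = D * (a * n ^ 2 * R ^ 2) := by
      rw [hf, hD, hR]
      simp only [Matrix.cons_val_zero]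
      push_cast
      field_simp
    have hf1 : (f 1 : ℝ) = D * (2 * a * m * n * R) := by
      rw [hf, hD, hR]
      simp only [Matrix.cons_val_one, Matrix.cons_val_zero]
      push_cast
      field_simp
    have hf2 : (f 2 : ℝ) = D * (a * m ^ 2) := by
      rw [hf, hD]
      simp only [Matrix.cons_val]
      push_cast
      ring
    have hf3 : (f 3 : ℝ) = - (D * (m * n * (P - c))) := by
      rw [hf, hD, hP]
      simp only [Matrix.cons_val]
      push_cast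
      field_simp
    have hf4 : (f 4 : ℝ) = D * (m * n * b) := by
      rw [hf, hD]
      simp only [Matrix.cons_val]
      push_cast
      ring
    have hKR : |(a : ℝ)| * n ^ 2 * R ^ 2 ≤ |(a : ℝ)| * (n : ℝ) ^ 2 * (|v| + 1) ^ 2 := by
      have : R ^ 2 ≤ (|v| + 1) ^ 2 := by rw [← sq_abs R]; gcongr
      gcongr
    have k0 : 0 ≤ |(a : ℝ)| * m ^ 2 := by positivity
    have k1 : 0 ≤ 2 * |(a : ℝ)| * m * n * (|v| + 1) := by positivity
    have k2 : 0 ≤ |(a : ℝ)| * n ^ 2 * (|v| + 1) ^ 2 := by positivity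
    have k3 : 0 ≤ (m : ℝ) * n * (|u| + 1 + |(c : ℝ)|) := by positivity
    have k4 : 0 ≤ (m : ℝ) * n * |(b : ℝ)| := by positivity
    have hm0' : (0 : ℝ) ≤ (m : ℝ) := by linarith
    have hn0' : (0 : ℝ) ≤ (n : ℝ) := by linarith
    have hlow := hmeas f (fun h => by
      have h1 := congrFun h 2
      rw [h1, Pi.zero_apply, Int.cast_zero] at hf2
      have h2 : (D * (a * m ^ 2) : ℝ) ≠ 0 := by
        have : (a : ℝ) ≠ 0 := by exact_mod_cast ha
        have : (m : ℝ) ≠ 0 := by positivity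
        positivity
      exact h2 hf2.symm) (K * D) (fun i => by
        rw [mul_comm K D]
        fin_cases i
        · show |(f 0 : ℝ)| ≤ _
          rw [hf0, abs_mul, abs_of_pos hqs0]
          refine mul_le_mul_of_nonneg_left ?_ hqs0.le
          rw [abs_mul, abs_mul, abs_of_nonneg (show (0 : ℝ) ≤ (n : ℝ) ^ 2 by positivity),
            abs_of_nonneg (sq_nonneg R), hK]
          linarith
        · show |(f 1 : ℝ)| ≤ _
          rw [hf1, abs_mul, abs_of_pos hqs0]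
          refine mul_le_mul_of_nonneg_left ?_ hqs0.le
          rw [abs_mul, abs_mul, abs_mul, abs_mul, abs_of_pos (show (0 : ℝ) < 2 by norm_num),
            abs_of_nonneg hm0', abs_of_nonneg hn0', hK]
          have h1 : (2 : ℝ) * |(a : ℝ)| * m * n * |R| ≤ 2 * |(a : ℝ)| * m * n * (|v| + 1) := by gcongr
          linarith
        · show |(f 2 : ℝ)| ≤ _
          rw [hf2, abs_mul, abs_of_pos hqs0]
          refine mul_le_mul_of_nonneg_left ?_ hqs0.le
          rw [abs_mul, abs_of_nonneg (show (0 : ℝ) ≤ (m : ℝ) ^ 2 by positivity), hK]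
          linarith
        · show |(f 3 : ℝ)| ≤ _
          rw [hf3, abs_neg, abs_mul, abs_of_pos hqs0]
          refine mul_le_mul_of_nonneg_left ?_ hqs0.le
          rw [abs_mul, abs_of_nonneg (show (0 : ℝ) ≤ (m : ℝ) * n by positivity), hK]
          have h1 : |P - c| ≤ |u| + 1 + |(c : ℝ)| := (abs_sub _ _).trans (by linarith)
          have h2 : (m : ℝ) * n * |P - c| ≤ m * n * (|u| + 1 + |(c : ℝ)|) := by gcongr
          linarith
        · show |(f 4 : ℝ)| ≤ _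
          rw [hf4, abs_mul, abs_of_pos hqs0]
          refine mul_le_mul_of_nonneg_left ?_ hqs0.le
          rw [abs_mul, abs_of_nonneg (show (0 : ℝ) ≤ (m : ℝ) * n by positivity), hK]
          linarith)
    have hval : (f 0 : ℝ) + f 1 * G + f 2 * G ^ 2 + f 3 * E + f 4 * (E * e) =
        n ^ 2 * D * (a * ((R - v) * (2 * (x * G) + v + R)) + x * E * (u - P)) := by
      rw [hf0, hf1, hf2, hf3, hf4]
      have h1 : (n : ℝ) * x = m := by rw [hmn]; field_simp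
      rw [← h1]
      linear_combination (-(n : ℝ) ^ 2 * D) * hrel2
    rw [hval] at hlow
    have hup : |(n : ℝ) ^ 2 * D * (a * ((R - v) * (2 * (x * G) + v + R)) + x * E * (u - P))| ≤ W * D * η := by
      rw [abs_mul, abs_of_pos (show (0 : ℝ) < n ^ 2 * D by positivity)]
      have h1 : |a * ((R - v) * (2 * (x * G) + v + R)) + x * E * (u - P)| ≤
          (|(a : ℝ)| * (2 * (x * |G|) + 2 * |v| + 1) + x * E) * η := by
        refine (abs_add_le _ _).trans ?_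
        rw [abs_mul, abs_mul, abs_mul (x * E : ℝ), abs_of_pos (show (0 : ℝ) < x * E by positivity),
          abs_sub_comm R v]
        have h2 : |2 * (x * G) + v + R| ≤ 2 * (x * |G|) + 2 * |v| + 1 := by
          refine (abs_add_three _ _ _).trans ?_
          rw [abs_mul, abs_mul, abs_of_pos hx', abs_of_pos (show (0 : ℝ) < 2 by norm_num)]
          linarith
        calc |(a : ℝ)| * (|v - R| * |2 * (x * G) + v + R|) + x * E * |u - P|
            ≤ |(a : ℝ)| * (η * (2 * (x * |G|) + 2 * |v| + 1)) + x * E * η := by gcongr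
          _ = _ := by ring
      calc (n : ℝ) ^ 2 * D * |a * ((R - v) * (2 * (x * G) + v + R)) + x * E * (u - P)|
          ≤ n ^ 2 * D * ((|(a : ℝ)| * (2 * (x * |G|) + 2 * |v| + 1) + x * E) * η) := by gcongr
        _ = _ := by rw [hW]; ring
    have hfin := fin_bound hK0 hW0 hqs0 (hlow.trans hup)
    refine le_trans ?_ hfin
    rw [show (4 + ε + 1 : ℝ) = 5 + ε by ring]
    exact mul_le_mul_of_nonneg_right (min_le_right _ _) hpw0.le

end Pool.Agent.V8H31.GT
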