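import Pool.Agent.V8H31.GT.JointT
import Pool.Agent.N743.Alg
import Pool.Agent.N743.RatW
import Pool.Agent.H43R2.Cplx.EMeas

/-!
# The scale dichotomy for forms in `π`, `e` and the Gaussian tail integrals
-/

set_option autoImplicit false

namespace Pool.Agent.V8H31.GT

open Pool.Agent.R356 (JointR JointR.symm)
open Pool.Agent.R473.JC Pool.Agent.TH456.TM Pool.Agent.N743
open Polynomial

/-- the number `f₁ ξ + f₂ e + f₃` -/
noncomputable def frm (ξ : ℝ) (f : ℤ × ℤ × ℤ) : ℝ := f.1 * ξ + f.2.1 * Real.exp 1 + f.2.2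

/-- the coefficients of `ξ` and `e` are not proportional -/
def Ind (f g : ℤ × ℤ × ℤ) : Prop := f.1 * g.2.1 ≠ g.1 * f.2.1

theorem joint_forms (ξ : ℝ) (f g : ℤ × ℤ × ℤ) (h : Ind f g) : JointR (frm ξ f) (frm ξ g) := by
  obtain ⟨a, b, c⟩ := f
  obtain ⟨a', b', c'⟩ := g
  refine jointR_of_alg (Real.exp 1) measT_e _ _ ?_
  have hd : a * b' - a' * b ≠ 0 := sub_ne_zero.2 h
  have hu : frm ξ (a, b, c) = a * ξ + b * Real.exp 1 + c := rfl
  have hv : frm ξ (a', b', c') = a' * ξ + b' * Real.exp 1 + c' := rfl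
  obtain ⟨u, hu'⟩ : ∃ u : ℝ, u = frm ξ (a, b, c) := ⟨_, rfl⟩
  obtain ⟨v, hv'⟩ : ∃ v : ℝ, v = frm ξ (a', b', c') := ⟨_, rfl⟩
  rw [← hu', ← hv']
  rw [← hu'] at hu
  rw [← hv'] at hv
  refine alg_of_eq _ _ _ (C (((a * b' - a' * b : ℤ) : Algebra.adjoin ℤ ({u, v} : Set ℝ))) * X) ?_
    (a * v - a' * u + ((a' * c - a * c' : ℤ) : ℝ)) ?_ ?_
  · rw [natDegree_C_mul_X]
    · norm_num
    · exact_mod_cast hd
  · refine add_mem (sub_mem (Subalgebra.mul_mem _ (intCast_mem _ a) (mem_v _ _))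
      (Subalgebra.mul_mem _ (intCast_mem _ a') (mem_u _ _))) (intCast_mem _ _)
  · rw [hu, hv]
    simp only [map_mul, aeval_C, aeval_X]
    push_cast
    simp only [map_intCast]
    ring

/-- rational approximations of two forms -/
theorem rat_forms (ξ : ℝ) (f g : ℤ × ℤ × ℤ) (h : Ind f g) (ε : ℝ) (hε : 0 < ε) :
    ∃ C : ℝ, 0 < C ∧ ∀ (p r : ℤ) (q s : ℕ), 0 < q → 0 < s →
      C * ((q : ℝ) ^ 1 * (s : ℝ) ^ 1) ^ (-(2 + ε)) ≤ max |frm ξ f - p / q| |frm ξ g - r / s| := by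
  obtain ⟨a, b, c⟩ := f
  obtain ⟨a', b', c'⟩ := g
  obtain ⟨d, hd⟩ : ∃ d : ℤ, d = a * b' - a' * b := ⟨_, rfl⟩
  have hd0 : d ≠ 0 := by rw [hd]; exact sub_ne_zero.2 h
  obtain ⟨κ, hκ, hm⟩ := Pool.Agent.H43R2.Cplx.EMeas.measure ε hε
  obtain ⟨L, hL⟩ : ∃ L : ℝ, L = |(a : ℝ)| + |(a' : ℝ)| + 1 := ⟨_, rfl⟩
  have hL0 : 0 < L := by rw [hL]; positivity
  obtain ⟨D, hD⟩ : ∃ D : ℕ, D = d.natAbs := ⟨_, rfl⟩
  have hD1 : 1 ≤ D := by rw [hD]; exact Int.natAbs_pos.2 hd0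
  have hDr : (0 : ℝ) < D := by exact_mod_cast hD1
  refine ⟨κ / (L * (D : ℝ) ^ (1 + ε)), by positivity, fun p r q s hq hs => ?_⟩
  have hq0 : (0 : ℝ) < q := by exact_mod_cast hq
  have hs0 : (0 : ℝ) < s := by exact_mod_cast hs
  obtain ⟨δ, hδ⟩ : ∃ δ : ℝ, δ = max |frm ξ (a, b, c) - p / q| |frm ξ (a', b', c') - r / s| := ⟨_, rfl⟩
  have h1 : |frm ξ (a, b, c) - p / q| ≤ δ := by rw [hδ]; exact le_max_left _ _
  have h2 : |frm ξ (a', b', c') - r / s| ≤ δ := by rw [hδ]; exact le_max_right _ _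
  have hδ0 : 0 ≤ δ := (abs_nonneg _).trans h1
  obtain ⟨sg, hsg, hsd⟩ : ∃ sg : ℤ, |sg| = 1 ∧ sg * d = D := by
    rcases lt_or_gt_of_ne hd0 with h0 | h0
    · exact ⟨-1, by norm_num, by rw [hD]; omega⟩
    · exact ⟨1, by norm_num, by rw [hD]; omega⟩
  obtain ⟨m, hmdef⟩ : ∃ m : ℤ, m = sg * ((a' * c - a * c') * (q * s) + a * r * q - a' * p * s) := ⟨_, rfl⟩
  have h3 := hm (D * q * s) (Nat.mul_pos (Nat.mul_pos hD1 hq) hs) m
  have e1 : ((D * q * s : ℕ) : ℝ) * Real.exp 1 - m =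
      sg * (q * s) * (a * (frm ξ (a', b', c') - r / s) - a' * (frm ξ (a, b, c) - p / q)) := by
    rw [hmdef]
    have hDe : (D : ℝ) = sg * (a * b' - a' * b) := by
      have : ((sg * d : ℤ) : ℝ) = ((D : ℤ) : ℝ) := by rw [hsd]
      rw [hd] at this
      push_cast at this
      linarith
    push_cast
    rw [hDe]
    simp only [frm]
    field_simp
    ring
  have hsgr : |(sg : ℝ)| = 1 := by rw [← Int.cast_abs, hsg]; norm_num
  have h4 : |((D * q * s : ℕ) : ℝ) * Real.exp 1 - m| ≤ (q * s) * (L * δ) := by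
    rw [e1, abs_mul, abs_mul, hsgr, one_mul, abs_of_pos (by positivity : (0 : ℝ) < q * s)]
    refine mul_le_mul_of_nonneg_left ?_ (by positivity)
    calc |(a : ℝ) * (frm ξ (a', b', c') - r / s) - a' * (frm ξ (a, b, c) - p / q)|
        ≤ |(a : ℝ)| * |frm ξ (a', b', c') - r / s| + |(a' : ℝ)| * |frm ξ (a, b, c) - p / q| := by
          rw [← abs_mul, ← abs_mul]
          exact abs_sub _ _
      _ ≤ |(a : ℝ)| * δ + |(a' : ℝ)| * δ := by gcongr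
      _ ≤ L * δ := by rw [hL]; nlinarith
  have hqs : (0 : ℝ) < q * s := by positivity
  have h5 : κ ≤ (D : ℝ) ^ (1 + ε) * ((q : ℝ) * s) ^ (1 + ε) * ((q * s) * (L * δ)) := by
    have e2 : (((D * q * s : ℕ) : ℝ)) ^ (1 + ε) = (D : ℝ) ^ (1 + ε) * ((q : ℝ) * s) ^ (1 + ε) := by
      push_cast
      rw [mul_assoc, Real.mul_rpow hDr.le hqs.le]
    rw [e2] at h3
    refine h3.trans (mul_le_mul_of_nonneg_left h4 (by positivity))
  rw [← hδ]
  simp only [pow_one]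
  have e3 : ((q : ℝ) * s) ^ (-(2 + ε)) = (((q : ℝ) * s) ^ (1 + ε) * (q * s))⁻¹ := by
    rw [Real.rpow_neg hqs.le]
    congr 1
    have : (2 + ε : ℝ) = (1 + ε) + 1 := by ring
    rw [this, Real.rpow_add hqs, Real.rpow_one]
  rw [e3, div_mul_eq_mul_div, div_le_iff₀ (by positivity), ← div_eq_mul_inv, div_le_iff₀ (by positivity)]
  calc κ ≤ _ := h5
    _ = _ := by ring

/-- the dichotomy for rational approximations of forms -/
theorem dich_rat (ξ : ℝ) (F : Finset (ℤ × ℤ × ℤ)) (hF : (F : Set (ℤ × ℤ × ℤ)).Pairwise Ind)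
    (θ M : ℝ) (hθ : 0 < θ) (hM1 : 1 < M) (hM : 2 * θ * (M + 1) < 1) :
    Dichotomy (fun f : F => IsRat (frm ξ f)) (fun X f => RatNear θ X (frm ξ f)) M := by
  have h := dichotomy_ratw (ι := F) (fun f => frm ξ f) (fun _ => 1) (fun _ => le_rfl) 2 (by norm_num)
    (fun f g hfg ε hε => rat_forms ξ f g (hF f.2 g.2 (fun h => hfg (Subtype.ext h))) ε hε) θ M hθ hM1 hM
  simpa using h

/-- the dichotomy for algebraic approximations of forms -/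
theorem dich_alg (ξ : ℝ) (F : Finset (ℤ × ℤ × ℤ)) (hF : (F : Set (ℤ × ℤ × ℤ)).Pairwise Ind)
    (d : ℕ) (M : ℝ) (hM : 1 < M) : ∃ θ₀ : ℝ, 0 < θ₀ ∧ ∀ θ : ℝ, 0 < θ → θ ≤ θ₀ →
      Dichotomy (fun f : F => AlgDeg d (frm ξ f)) (fun X f => AlgNear d θ X (frm ξ f)) M :=
  dichotomy_alg (fun f : F => frm ξ f)
    (fun f g hfg => joint_forms ξ f g (hF f.2 g.2 (fun h => hfg (Subtype.ext h)))) d M hM

/-- forms in `π` and `e`, and tail integrals -/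
noncomputable def num3 : (ℤ × ℤ × ℤ) ⊕ T → ℝ
  | Sum.inl f => frm Real.pi f
  | Sum.inr t => tail t

/-- the pairs that we can treat -/
def Ind3 : (ℤ × ℤ × ℤ) ⊕ T → (ℤ × ℤ × ℤ) ⊕ T → Prop
  | Sum.inl f, Sum.inl g => Ind f g
  | Sum.inl f, Sum.inr _ => f.1 ≠ 0 ∨ f.2.1 ≠ 0
  | Sum.inr _, Sum.inl f => f.1 ≠ 0 ∨ f.2.1 ≠ 0
  | Sum.inr t, Sum.inr t' => t ≠ t'

theorem joint_mixed (f : ℤ × ℤ × ℤ) (hf : f.1 ≠ 0 ∨ f.2.1 ≠ 0) (t : T) :
    JointR (frm Real.pi f) (tail t) := by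
  obtain ⟨m, n, l⟩ := f
  by_cases hn : n = 0
  · have hm : m ≠ 0 := hf.resolve_right (fun h => h hn)
    subst hn
    have := joint_pi_tail m l hm t
    simpa [frm] using this
  · exact joint_form_tail m n l hn t

theorem joint3 (i j : (ℤ × ℤ × ℤ) ⊕ T) (h : Ind3 i j) : JointR (num3 i) (num3 j) := by
  rcases i with f | t <;> rcases j with g | t'
  · exact joint_forms _ _ _ h
  · exact joint_mixed f h t'
  · exact (joint_mixed g h t).symm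
  · exact joint_tail_tail t t' h

theorem dich3 (J : Finset ((ℤ × ℤ × ℤ) ⊕ T)) (hJ : (J : Set ((ℤ × ℤ × ℤ) ⊕ T)).Pairwise Ind3)
    (d : ℕ) (M : ℝ) (hM : 1 < M) : ∃ θ₀ : ℝ, 0 < θ₀ ∧ ∀ θ : ℝ, 0 < θ → θ ≤ θ₀ →
      Dichotomy (fun j : J => AlgDeg d (num3 j)) (fun X j => AlgNear d θ X (num3 j)) M :=
  dichotomy_alg (fun j : J => num3 j)
    (fun i j hij => joint3 i j (hJ i.2 j.2 (fun h => hij (Subtype.ext h)))) d M hM

end Pool.Agent.V8H31.GT
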