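import Pool.Agent.Q163.LE.Meas
import Pool.Agent.N743.SS.Multi

/-!
# Measures of algebraic independence and simultaneously Liouville fields
-/

set_option autoImplicit false

namespace Pool.Agent.V8H31.GT

open Pool.Agent.Q163.LE Pool.Agent.N743.SS MvPolynomial

/-- numbers with a measure of algebraic independence, polynomial in the height for every degree, are
algebraically independent over every simultaneously Liouville field -/
theorem algInd_of_measM {ι : Type} {x : ι → ℝ} (hx : MeasM x) {F : Subfield ℝ}
    (hF : SimLiouville F) : AlgebraicIndependent F x := by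
  classical
  rw [algebraicIndependent_iff]
  intro P hP
  by_contra hP0
  obtain ⟨κ, c, hκ, hc, hm⟩ := hx P.totalDegree
  let e : Fin P.support.card ≃ P.support := P.support.equivFin.symm
  have hlin : LinearIndependent F (fun i : Fin P.support.card =>
      ((e i : ι →₀ ℕ)).prod fun j k => x j ^ k) := by
    refine lin_indep hF _ ⌈κ⌉₊ c hc fun z H hz hH hzH => ?_
    obtain ⟨Q, hQ⟩ : ∃ Q : MvPolynomial ι ℤ, Q = ∑ i, monomial (e i : ι →₀ ℕ) (z i) := ⟨_, rfl⟩
    have hcoef : ∀ i, Q.coeff (e i : ι →₀ ℕ) = z i := by
      intro i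
      rw [hQ, coeff_sum, Finset.sum_eq_single i]
      · rw [coeff_monomial, if_pos rfl]
      · intro j _ hj
        rw [coeff_monomial, if_neg]
        intro h0
        exact hj (e.injective (Subtype.ext h0))
      · intro h0
        exact absurd (Finset.mem_univ _) h0
    have hcoef' : ∀ s, |((Q.coeff s : ℤ) : ℝ)| ≤ H := by
      intro s
      by_cases hs : s ∈ P.support
      · have h1 := hcoef (e.symm ⟨s, hs⟩)
        rw [Equiv.apply_symm_apply] at h1
        rw [h1]
        exact hzH _
      · have h1 : Q.coeff s = 0 := by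
          rw [hQ, coeff_sum]
          refine Finset.sum_eq_zero fun j _ => ?_
          rw [coeff_monomial, if_neg]
          intro h0
          exact hs (h0 ▸ (e j).2)
        rw [h1, Int.cast_zero, abs_zero]
        linarith
    have hQ0 : Q ≠ 0 := by
      intro h0
      apply hz
      funext i
      rw [← hcoef i, h0, coeff_zero]
      rfl
    have hdeg : Q.totalDegree ≤ P.totalDegree := by
      rw [hQ]
      refine (totalDegree_finsetSum _ _).trans (Finset.sup_le fun i _ => ?_)
      refine (totalDegree_monomial_le _ _).trans ?_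
      exact le_totalDegree (e i).2
    have hmain := hm Q hQ0 hdeg H hcoef'
    have e1 : aeval x Q = ∑ i, (z i : ℝ) * ((e i : ι →₀ ℕ)).prod fun j k => x j ^ k := by
      rw [hQ, map_sum]
      refine Finset.sum_congr rfl fun i _ => ?_
      rw [aeval_monomial]
      simp
    rw [← e1]
    refine le_trans ?_ hmain
    have hH0 : (0 : ℝ) < H := by linarith
    rw [div_eq_mul_inv, ← Real.rpow_natCast, ← Real.rpow_neg hH0.le]
    refine mul_le_mul_of_nonneg_left ?_ hc.le
    refine Real.rpow_le_rpow_of_exponent_le hH ?_
    linarith [Nat.le_ceil κ]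
  rw [Fintype.linearIndependent_iff] at hlin
  have hall := hlin (fun i => P.coeff (e i : ι →₀ ℕ)) (by
    rw [← hP, aeval_def, eval₂_eq, ← Finset.sum_coe_sort P.support
      (fun d => (algebraMap F ℝ) (coeff d P) * ∏ i ∈ d.support, x i ^ d i), ← e.sum_comp]
    refine Finset.sum_congr rfl fun i _ => ?_
    rw [Algebra.smul_def]
    rfl)
  obtain ⟨s, hs⟩ := MvPolynomial.ne_zero_iff.1 hP0
  have h1 := hall (e.symm ⟨s, mem_support_iff.2 hs⟩)
  rw [Equiv.apply_symm_apply] at h1
  exact hs h1

end Pool.Agent.V8H31.GT
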