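import Pool.Agent.V8H31.GT.Main
import Pool.Agent.N743.SS.PiE
import Pool.Agent.R473.JC.Pairs

/-!
# Joint measures for `π ± e` and the Gaussian tail integrals
-/

set_option autoImplicit false

namespace Pool.Agent.V8H31.GT

open Pool.Agent.N743.SS Pool.Agent.R352.T
open Pool.Agent.R356 (JointR)
open Polynomial

/-- the basic relation in the form `√(π / 2) = (t / 2) (2 - z) + I(t)` -/
theorem tail_rel' {t : ℝ} (ht : 0 < t) :
    √(Real.pi / 2) = t / 2 * (2 - EA (1 / 2) 1 (t ^ 2 / 2)) + tail t := by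
  have h := tail_rel ht
  have h1 : √Real.pi * (t / √2) = t * √(Real.pi / 2) := by
    rw [Real.sqrt_div' _ (by norm_num)]
    ring
  rw [h1] at h
  have h2 : t * √(Real.pi / 2) = t * (t / 2 * (2 - EA (1 / 2) 1 (t ^ 2 / 2)) + tail t) := by
    rw [h]; ring
  exact mul_left_cancel₀ ht.ne' h2

/-- a positive argument with a rational square -/
theorem arg_data (t : T) : ∃ a b : ℕ, 1 ≤ a ∧ 1 ≤ b ∧ (b : ℝ) * (t : ℝ) ^ 2 = a ∧
    ∃ x : ℚ, 0 < x ∧ (t : ℝ) ^ 2 / 2 = x := by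
  obtain ⟨t, ht0, r, hr⟩ := t
  have hr0 : (0 : ℝ) < r := by rw [← hr]; positivity
  have hr0' : 0 < r := by exact_mod_cast hr0
  refine ⟨r.num.toNat, r.den, ?_, r.den_pos, ?_, r / 2, by positivity, ?_⟩
  · have := Rat.num_pos.2 hr0'
    omega
  · show (r.den : ℝ) * t ^ 2 = _
    rw [hr]
    have h1 : ((r.num.toNat : ℕ) : ℝ) = (r.num : ℝ) := by
      have : ((r.num.toNat : ℕ) : ℤ) = r.num := Int.toNat_of_nonneg (Rat.num_pos.2 hr0').le
      exact_mod_cast this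
    rw [h1]
    have h2 : ((r : ℚ) : ℝ) = (r.num : ℝ) / (r.den : ℝ) := by
      exact_mod_cast (Rat.num_div_den r).symm
    rw [h2]
    have h3 : (r.den : ℝ) ≠ 0 := by exact_mod_cast r.den_ne_zero
    field_simp
  · show t ^ 2 / 2 = _
    rw [hr]
    push_cast
    ring

/-- `m π + n e + l` and `I(t)` -/
theorem joint_form_tail (m n l : ℤ) (hn : n ≠ 0) (t : T) :
    JointR (m * Real.pi + n * Real.exp 1 + l) (tail t) := by
  obtain ⟨a, b, ha, hb, hab, x, hx, htx⟩ := arg_data t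
  obtain ⟨q, hq, hM⟩ := measM_vals 1 (fun _ => x) (fun _ => hx) (fun _ _ _ => Subsingleton.elim _ _)
  have ht0 : (0 : ℝ) < t := t.2.1
  have hrel := tail_rel' ht0
  rw [htx] at hrel
  obtain ⟨z, hz⟩ : ∃ z : ℝ, z = EA (1 / 2) 1 x := ⟨_, rfl⟩
  obtain ⟨v, hv⟩ : ∃ v : ℝ, v = tail t := ⟨_, rfl⟩
  obtain ⟨o, ho⟩ : ∃ o : Option (Fin 1), o = some 0 := ⟨_, rfl⟩
  obtain ⟨F, hF⟩ : ∃ F : Polynomial (Polynomial (MvPolynomial (Option (Fin 1)) ℤ)), F =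
    (C (C (MvPolynomial.C (2 * b : ℤ))) * (C (C (MvPolynomial.X none ^ q)) * (X - C (C (MvPolynomial.C l))) -
        C (C (MvPolynomial.C n))) +
      C (C (MvPolynomial.C (4 * b * m : ℤ) * MvPolynomial.X none ^ q)) * C X ^ 2 -
      C (C (MvPolynomial.C (a * m : ℤ) * MvPolynomial.X none ^ q * (2 - MvPolynomial.X o) ^ 2))) ^ 2 -
    C (C (MvPolynomial.C (32 * b ^ 2 * m : ℤ) * MvPolynomial.X none ^ q)) *
      (C (C (MvPolynomial.X none ^ q)) * (X - C (C (MvPolynomial.C l))) - C (C (MvPolynomial.C n))) *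
        C X ^ 2 := ⟨_, rfl⟩
  have hev : ∀ (ψ : Option (Fin 1) → ℂ) (α β : ℂ), e3 ψ α β F =
      (2 * b * (ψ none ^ q * (α - l) - n) + 4 * b * m * ψ none ^ q * β ^ 2 -
          a * m * ψ none ^ q * (2 - ψ o) ^ 2) ^ 2 -
        32 * b ^ 2 * m * ψ none ^ q * (ψ none ^ q * (α - l) - n) * β ^ 2 := by
    intro ψ α β
    rw [hF]
    simp only [e3_sub, e3_add, e3_mul, e3_pow, e3_CC, e3_CX, e3_X]
    simp only [map_sub, map_mul, map_pow, map_ofNat, MvPolynomial.aeval_X, eq_intCast,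
      map_natCast, map_intCast]
  refine jointR_rel _ hM _ _ F ?_ ?_
  · rw [hev]
    have hc : ((Real.exp (-1 / q) : ℝ) : ℂ) ^ q = ((Real.exp (-1) : ℝ) : ℂ) := by
      have h1 : Real.exp (-1 / q) ^ q = Real.exp (-1) := by
        rw [← Real.exp_nat_mul]
        congr 1
        have : (q : ℝ) ≠ 0 := by positivity
        field_simp
      exact_mod_cast congrArg (fun z : ℝ => (z : ℂ)) h1
    rw [ho]
    simp only [Option.elim_none, Option.elim_some]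
    rw [hc, ← hz]
    rw [← hz, ← hv] at hrel
    rw [← hv]
    obtain ⟨E, hE⟩ : ∃ E : ℝ, E = Real.exp (-1) := ⟨_, rfl⟩
    have hE1 : E * Real.exp 1 = 1 := by
      rw [hE, ← Real.exp_add]; simp
    rw [← hE]
    obtain ⟨w, hw⟩ : ∃ w : ℝ, w = √(Real.pi / 2) := ⟨_, rfl⟩
    have hw2 : w ^ 2 = Real.pi / 2 := by rw [hw, Real.sq_sqrt (by positivity)]
    rw [← hw] at hrel
    have h1 : (t : ℝ) ^ 2 * (2 - z) ^ 2 = 4 * (w - v) ^ 2 := by rw [hrel]; ring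
    have h2 : (a : ℝ) * (2 - z) ^ 2 = 4 * b * (w - v) ^ 2 := by
      rw [← hab, mul_assoc, h1]; ring
    have h3 : E * (m * Real.pi + n * Real.exp 1 + l - l) - n = m * E * (2 * w ^ 2) := by
      rw [hw2]
      linear_combination (n : ℝ) * hE1
    have key : (2 * b * (E * (m * Real.pi + n * Real.exp 1 + l - l) - n) + 4 * b * m * E * v ^ 2 -
        a * m * E * (2 - z) ^ 2) ^ 2 - 32 * b ^ 2 * m * E *
          (E * (m * Real.pi + n * Real.exp 1 + l - l) - n) * v ^ 2 = 0 := by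
      have h4 : (a : ℝ) * m * E * (2 - z) ^ 2 = m * E * (4 * b * (w - v) ^ 2) := by rw [← h2]; ring
      rw [h3, h4]
      ring
    exact_mod_cast congrArg (fun z : ℝ => (z : ℂ)) key
  · intro α β _ _
    refine ⟨fun _ => 0, ?_⟩
    rw [hev]
    have hb0 : (b : ℂ) ≠ 0 := by exact_mod_cast (by omega : b ≠ 0)
    have hn0 : (n : ℂ) ≠ 0 := by exact_mod_cast hn
    have hq0 : q ≠ 0 := by omega
    simp only [zero_pow hq0]
    have h1 : (2 * b * (0 * (α - l) - n) + 4 * b * m * 0 * β ^ 2 - a * m * 0 * (2 - 0) ^ 2 : ℂ) ^ 2 -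
        32 * b ^ 2 * m * 0 * (0 * (α - l) - n) * β ^ 2 = (2 * b * n) ^ 2 := by ring
    rw [h1]
    exact pow_ne_zero 2 (mul_ne_zero (mul_ne_zero two_ne_zero hb0) hn0)

/-- `m π + l` and `I(t)` -/
theorem joint_pi_tail (m l : ℤ) (hm : m ≠ 0) (t : T) : JointR (m * Real.pi + l) (tail t) := by
  obtain ⟨a, b, ha, hb, hab, x, hx, htx⟩ := arg_data t
  obtain ⟨q, hq, hM⟩ := measM_vals 1 (fun _ => x) (fun _ => hx) (fun _ _ _ => Subsingleton.elim _ _)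
  have ht0 : (0 : ℝ) < t := t.2.1
  have hrel := tail_rel' ht0
  rw [htx] at hrel
  obtain ⟨z, hz⟩ : ∃ z : ℝ, z = EA (1 / 2) 1 x := ⟨_, rfl⟩
  obtain ⟨v, hv⟩ : ∃ v : ℝ, v = tail t := ⟨_, rfl⟩
  obtain ⟨o, ho⟩ : ∃ o : Option (Fin 1), o = some 0 := ⟨_, rfl⟩
  obtain ⟨F, hF⟩ : ∃ F : Polynomial (Polynomial (MvPolynomial (Option (Fin 1)) ℤ)), F =
    (C (C (MvPolynomial.C (2 * b : ℤ))) * (X - C (C (MvPolynomial.C l))) +
      C (C (MvPolynomial.C (4 * b * m : ℤ))) * C X ^ 2 -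
      C (C (MvPolynomial.C (a * m : ℤ) * (2 - MvPolynomial.X o) ^ 2))) ^ 2 -
    C (C (MvPolynomial.C (32 * b ^ 2 * m : ℤ))) * (X - C (C (MvPolynomial.C l))) * C X ^ 2 := ⟨_, rfl⟩
  have hev : ∀ (ψ : Option (Fin 1) → ℂ) (α β : ℂ), e3 ψ α β F =
      (2 * b * (α - l) + 4 * b * m * β ^ 2 - a * m * (2 - ψ o) ^ 2) ^ 2 -
        32 * b ^ 2 * m * (α - l) * β ^ 2 := by
    intro ψ α β
    rw [hF]
    simp only [e3_sub, e3_add, e3_mul, e3_pow, e3_CC, e3_CX, e3_X]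
    simp only [map_sub, map_mul, map_pow, map_ofNat, MvPolynomial.aeval_X, eq_intCast,
      map_natCast, map_intCast]
  refine jointR_rel _ hM _ _ F ?_ ?_
  · rw [hev, ho]
    simp only [Option.elim_some]
    rw [← hz]
    rw [← hz, ← hv] at hrel
    rw [← hv]
    obtain ⟨w, hw⟩ : ∃ w : ℝ, w = √(Real.pi / 2) := ⟨_, rfl⟩
    have hw2 : w ^ 2 = Real.pi / 2 := by rw [hw, Real.sq_sqrt (by positivity)]
    rw [← hw] at hrel
    have h1 : (t : ℝ) ^ 2 * (2 - z) ^ 2 = 4 * (w - v) ^ 2 := by rw [hrel]; ring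
    have h2 : (a : ℝ) * (2 - z) ^ 2 = 4 * b * (w - v) ^ 2 := by
      rw [← hab, mul_assoc, h1]; ring
    have h3 : m * Real.pi + l - l = m * (2 * w ^ 2) := by
      rw [hw2]
      ring
    have key : (2 * b * (m * Real.pi + l - l) + 4 * b * m * v ^ 2 -
        a * m * (2 - z) ^ 2) ^ 2 - 32 * b ^ 2 * m * (m * Real.pi + l - l) * v ^ 2 = 0 := by
      have h4 : (a : ℝ) * m * (2 - z) ^ 2 = m * (4 * b * (w - v) ^ 2) := by rw [← h2]; ring
      rw [h3, h4]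
      ring
    exact_mod_cast congrArg (fun z : ℝ => (z : ℂ)) key
  · intro α β _ _
    have ha0 : (a : ℂ) ≠ 0 := by exact_mod_cast (by omega : a ≠ 0)
    have hm0 : (m : ℂ) ≠ 0 := by exact_mod_cast hm
    obtain ⟨Q, hQ⟩ : ∃ Q : ℂ, Q = 32 * b ^ 2 * m * (α - l) * β ^ 2 := ⟨_, rfl⟩
    obtain ⟨s, hs⟩ : ∃ s : ℂ, s ^ 2 - Q ≠ 0 := by
      by_cases h0 : Q = 0
      · exact ⟨1, by rw [h0]; simp⟩
      · exact ⟨0, by simp [h0]⟩
    obtain ⟨y, hy⟩ : ∃ y : ℂ, y ^ 2 = (2 * b * (α - l) + 4 * b * m * β ^ 2 - s) / (a * m) :=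
      IsAlgClosed.exists_pow_nat_eq _ (by norm_num)
    refine ⟨fun _ => 2 - y, ?_⟩
    rw [hev, ← hQ]
    have h1 : 2 * b * (α - l) + 4 * b * m * β ^ 2 - a * m * (2 - (2 - y)) ^ 2 = s := by
      have h2 : (2 - (2 - y)) ^ 2 = y ^ 2 := by ring
      rw [h2, hy]
      field_simp
      ring
    rw [h1]
    exact hs

/-- `I(t)` and `I(t')` -/
theorem joint_tail_tail (t t' : T) (hne : t ≠ t') : JointR (tail t) (tail t') := by
  obtain ⟨a, b, ha, hb, hab, x, hx, htx⟩ := arg_data t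
  obtain ⟨a', b', ha', hb', hab', x', hx', htx'⟩ := arg_data t'
  have ht0 : (0 : ℝ) < t := t.2.1
  have ht0' : (0 : ℝ) < t' := t'.2.1
  have hxx : x ≠ x' := by
    rintro rfl
    apply hne
    apply Subtype.ext
    have h1 : ((t : ℝ)) ^ 2 / 2 = (t' : ℝ) ^ 2 / 2 := by rw [htx, htx']
    nlinarith [sq_nonneg ((t : ℝ) - t'), sq_nonneg ((t : ℝ) + t')]
  obtain ⟨q, hq, hM⟩ := measM_vals 2 ![x, x'] (fun i => by fin_cases i <;> simp [hx, hx'])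
    (fun i j hij => by
      fin_cases i <;> fin_cases j <;> simp at hij ⊢
      · exact hxx hij
      · exact hxx hij.symm)
  have hrel := tail_rel' ht0
  have hrel' := tail_rel' ht0'
  rw [htx] at hrel
  rw [htx'] at hrel'
  obtain ⟨z, hz⟩ : ∃ z : ℝ, z = EA (1 / 2) 1 x := ⟨_, rfl⟩
  obtain ⟨z', hz'⟩ : ∃ z : ℝ, z = EA (1 / 2) 1 x' := ⟨_, rfl⟩
  obtain ⟨v, hv⟩ : ∃ v : ℝ, v = tail t := ⟨_, rfl⟩
  obtain ⟨v', hv'⟩ : ∃ v : ℝ, v = tail t' := ⟨_, rfl⟩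
  obtain ⟨o, ho⟩ : ∃ o : Option (Fin 2), o = some 0 := ⟨_, rfl⟩
  obtain ⟨o', ho'⟩ : ∃ o : Option (Fin 2), o = some 1 := ⟨_, rfl⟩
  have hoo : o' ≠ o := by rw [ho, ho']; simp
  obtain ⟨F, hF⟩ : ∃ F : Polynomial (Polynomial (MvPolynomial (Option (Fin 2)) ℤ)), F =
    (C (C (MvPolynomial.C (a * b' : ℤ) * (2 - MvPolynomial.X o) ^ 2)) +
      C (C (MvPolynomial.C (a' * b : ℤ) * (2 - MvPolynomial.X o') ^ 2)) -
      C (C (MvPolynomial.C (4 * b * b' : ℤ))) * (C X - X) ^ 2) ^ 2 -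
    C (C (MvPolynomial.C (4 * a * a' * b * b' : ℤ) * (2 - MvPolynomial.X o) ^ 2 *
      (2 - MvPolynomial.X o') ^ 2)) := ⟨_, rfl⟩
  have hev : ∀ (ψ : Option (Fin 2) → ℂ) (α β : ℂ), e3 ψ α β F =
      (a * b' * (2 - ψ o) ^ 2 + a' * b * (2 - ψ o') ^ 2 - 4 * b * b' * (β - α) ^ 2) ^ 2 -
        4 * a * a' * b * b' * (2 - ψ o) ^ 2 * (2 - ψ o') ^ 2 := by
    intro ψ α β
    rw [hF]
    simp only [e3_sub, e3_add, e3_mul, e3_pow, e3_CC, e3_CX, e3_X]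
    simp only [map_sub, map_mul, map_pow, map_ofNat, MvPolynomial.aeval_X,
      map_natCast]
  refine jointR_rel _ hM _ _ F ?_ ?_
  · rw [hev, ho, ho']
    simp only [Option.elim_some, Matrix.cons_val_zero, Matrix.cons_val_one]
    rw [← hz, ← hz', ← hv, ← hv']
    rw [← hz, ← hv] at hrel
    rw [← hz', ← hv'] at hrel'
    obtain ⟨w, hw⟩ : ∃ w : ℝ, w = √(Real.pi / 2) := ⟨_, rfl⟩
    rw [← hw] at hrel hrel'
    have h1 : (t : ℝ) ^ 2 * (2 - z) ^ 2 = 4 * (w - v) ^ 2 := by rw [hrel]; ring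
    have h1' : (t' : ℝ) ^ 2 * (2 - z') ^ 2 = 4 * (w - v') ^ 2 := by rw [hrel']; ring
    have h2 : (a : ℝ) * (2 - z) ^ 2 = 4 * b * (w - v) ^ 2 := by
      rw [← hab, mul_assoc, h1]; ring
    have h2' : (a' : ℝ) * (2 - z') ^ 2 = 4 * b' * (w - v') ^ 2 := by
      rw [← hab', mul_assoc, h1']; ring
    have key : ((a : ℝ) * b' * (2 - z) ^ 2 + a' * b * (2 - z') ^ 2 - 4 * b * b' * (v' - v) ^ 2) ^ 2 -
        4 * a * a' * b * b' * (2 - z) ^ 2 * (2 - z') ^ 2 = 0 := by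
      have h3 : (a : ℝ) * b' * (2 - z) ^ 2 = b' * (4 * b * (w - v) ^ 2) := by rw [← h2]; ring
      have h4 : (a' : ℝ) * b * (2 - z') ^ 2 = b * (4 * b' * (w - v') ^ 2) := by rw [← h2']; ring
      have h5 : 4 * (a : ℝ) * a' * b * b' * (2 - z) ^ 2 * (2 - z') ^ 2 =
          4 * b * b' * (4 * b * (w - v) ^ 2) * (4 * b' * (w - v') ^ 2) := by
        rw [← h2, ← h2']; ring
      rw [h3, h4, h5]
      ring
    exact_mod_cast congrArg (fun z : ℝ => (z : ℂ)) key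
  · intro α β _ _
    have hb0 : (b : ℂ) ≠ 0 := by exact_mod_cast (by omega : b ≠ 0)
    have hb0' : (b' : ℂ) ≠ 0 := by exact_mod_cast (by omega : b' ≠ 0)
    have ha0' : (a' : ℂ) ≠ 0 := by exact_mod_cast (by omega : a' ≠ 0)
    by_cases hαβ : β - α = 0
    · refine ⟨fun i => if i = o then 2 else 1, ?_⟩
      rw [hev, hαβ]
      simp only [if_true, if_neg hoo]
      have h1 : (a * b' * (2 - 2) ^ 2 + a' * b * (2 - 1) ^ 2 - 4 * b * b' * 0 ^ 2 : ℂ) ^ 2 -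
          4 * a * a' * b * b' * (2 - 2) ^ 2 * (2 - 1) ^ 2 = (a' * b) ^ 2 := by ring
      rw [h1]
      exact pow_ne_zero 2 (mul_ne_zero ha0' hb0)
    · refine ⟨fun _ => 2, ?_⟩
      rw [hev]
      have h1 : (a * b' * (2 - 2) ^ 2 + a' * b * (2 - 2) ^ 2 - 4 * b * b' * (β - α) ^ 2 : ℂ) ^ 2 -
          4 * a * a' * b * b' * (2 - 2) ^ 2 * (2 - 2) ^ 2 = (4 * b * b' * (β - α) ^ 2) ^ 2 := by ring
      rw [h1]
      exact pow_ne_zero 2 (mul_ne_zero (mul_ne_zero (mul_ne_zero (by norm_num) hb0) hb0')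
        (pow_ne_zero 2 hαβ))

end Pool.Agent.V8H31.GT
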