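import Pool.Agent.N743.SS.KG

/-!
# A sharp measure for `1`, `G`, `G ^ 2`, `e ^ (2 x)`, `e ^ (2 x + 1)`
-/

set_option autoImplicit false

open PowerSeries

namespace Pool.Agent.V8H31.GT

open Pool.Agent.N743.SS Pool.Agent.R352.T Pool.Agent.Y113
open Pool.Agent.R352.E (EF EF.common wS EF_wS mon mon_eq mon_add mon_single ESys TQ ev_wS Sg prT mT lt_w_iff
  deriv_wS ps_zero ps_mul ps_X TQ_eq cf)

lemma deriv_wI_pow {q : ℕ} (hq : 1 ≤ q) (k : ℕ) :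
    (TQ q : ℚ⟦X⟧) * d⁄dX ℚ (wI q ^ k) = (k : ℚ⟦X⟧) * X * wI q ^ k := by
  rw [TQ_eq, Derivation.leibniz_pow]
  rcases k with _ | k'
  · simp
  · have h3 := deriv_wI hq
    simp only [Nat.add_sub_cancel, smul_eq_mul, nsmul_eq_mul]
    calc (q : ℚ⟦X⟧) * X * (((k' + 1 : ℕ) : ℚ⟦X⟧) * (wI q ^ k' * d⁄dX ℚ (wI q)))
        = ((k' + 1 : ℕ) : ℚ⟦X⟧) * X * wI q ^ k' * ((q : ℚ⟦X⟧) * d⁄dX ℚ (wI q)) := by ring
      _ = _ := by rw [h3, pow_succ]; ring

/-- the five functions are linearly independent over the polynomials -/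
lemma LI5 {c m q : ℕ} (hq : 1 ≤ q) (hc : q = 2 * c) (hm : 1 ≤ m) :
    LinearIndependent (Polynomial ℚ) (![1, GS c m q, GS c m q ^ 2, wI q ^ (2 * m), wI q ^ (2 * m + q)] :
      Fin 5 → ℚ⟦X⟧) := by
  have R := real_tw 1 1 (fun _ => m) (fun _ => c) (fun _ _ _ _ => Subsingleton.elim _ _) (fun _ => hm) hq
    (fun _ => by omega)
  obtain ⟨t, ht⟩ : ∃ t, t = tw 1 1 (fun _ => m) (fun _ => c) (fun _ _ _ _ => Subsingleton.elim _ _) (fun _ => hm) :=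
    ⟨_, rfl⟩
  obtain ⟨f, hf⟩ : ∃ f, f = fT 1 1 (fun _ => m) (fun _ => c) q := ⟨_, rfl⟩
  obtain ⟨A, hA⟩ : ∃ A, A = ESa ((c : ℚ) / q) 1 ((m : ℚ) / q) := ⟨_, rfl⟩
  have hfw : f t.w = wS q := by rw [ht, hf]; rfl
  obtain ⟨v, hv⟩ : ∃ v : Sg 1 1, v = toLex (Sum.inl (toLex (0, 0))) := ⟨_, rfl⟩
  have hfv : f v = A := by rw [hf, hv, hA]; rfl
  have hvw : v ≠ t.w := by
    rw [hv, ht]
    intro h
    exact Sum.inl_ne_inr (toLex.injective h)
  have hvz : v ≠ t.z := by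
    rw [hv, ht]
    intro h
    exact Sum.inl_ne_inr (toLex.injective h)
  rw [← ht, ← hf] at R
  have hwz : t.w ≠ t.z := ne_of_lt t.hwz
  have hvlt : v < t.w := lt_of_le_of_ne (t.htop v hvz) hvw
  have hVsum : ∀ s : Sg 1 1 →₀ ℕ, ∑ v' ∈ t.V, s v' = s v := by
    intro s
    refine Finset.sum_eq_single_of_mem v (t.mem_V.2 hvlt) fun b hb hbv => ?_
    exfalso
    apply hbv
    have hb' := t.mem_V.1 hb
    rw [ht] at hb'
    obtain ⟨c', hc'⟩ := (lt_w_iff 1 1 b).1 hb'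
    rw [hc', hv]
    congr 2
    exact ofLex.injective (Subsingleton.elim _ _)
  haveI : Finite (Idx t m (2 * m + q)) := Idx_finite t hm
  letI : Fintype (Idx t m (2 * m + q)) := Fintype.ofFinite _
  have hid : ∀ i j : ℕ, i + m * j ≤ 2 * m + q →
      (Finsupp.single t.w i + Finsupp.single v j : Sg 1 1 →₀ ℕ) t.z = 0 ∧
      (Finsupp.single t.w i + Finsupp.single v j : Sg 1 1 →₀ ℕ) t.w + m * ∑ v' ∈ t.V,
        (Finsupp.single t.w i + Finsupp.single v j : Sg 1 1 →₀ ℕ) v' ≤ 2 * m + q := by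
    intro i j hij
    rw [hVsum]
    simp only [Finsupp.add_apply]
    rw [Finsupp.single_eq_same, Finsupp.single_eq_same, Finsupp.single_eq_of_ne hwz.symm,
      Finsupp.single_eq_of_ne hvz.symm, Finsupp.single_eq_of_ne hvw, Finsupp.single_eq_of_ne hvw.symm]
    refine ⟨by omega, ?_⟩
    rw [zero_add, add_zero]
    exact hij
  let g : Fin 7 → Idx t m (2 * m + q) := ![⟨_, hid 0 0 (by omega)⟩, ⟨_, hid q 0 (by omega)⟩,
    ⟨_, hid q 1 (by omega)⟩, ⟨_, hid q 2 (by omega)⟩, ⟨_, hid (m + q) 0 (by omega)⟩,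
    ⟨_, hid (m + q) 1 (by omega)⟩, ⟨_, hid (2 * m + q) 0 (by omega)⟩]
  have hval : ∀ i j i' j' : ℕ, (Finsupp.single t.w i + Finsupp.single v j : Sg 1 1 →₀ ℕ) =
      Finsupp.single t.w i' + Finsupp.single v j' → i = i' ∧ j = j' := by
    intro i j i' j' h
    have h1 := DFunLike.congr_fun h t.w
    have h2 := DFunLike.congr_fun h v
    simp only [Finsupp.add_apply] at h1 h2
    rw [Finsupp.single_eq_same, Finsupp.single_eq_same, Finsupp.single_eq_of_ne hvw.symm,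
      Finsupp.single_eq_of_ne hvw.symm] at h1
    rw [Finsupp.single_eq_same, Finsupp.single_eq_same, Finsupp.single_eq_of_ne hvw,
      Finsupp.single_eq_of_ne hvw] at h2
    omega
  have hg : Function.Injective g := by
    intro a b hab
    have hab' := congrArg Subtype.val hab
    fin_cases a <;> fin_cases b <;> first | rfl | (have := hval _ _ _ _ hab'; omega)
  have hLI := (mon_LI R (M := m) (J₀ := 2 * m + q)).comp g hg
  have hmon : ∀ i j : ℕ, mon f (Finsupp.single t.w i + Finsupp.single v j) = wS q ^ i * A ^ j := by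
    intro i j
    rw [mon_add, mon_single, mon_single, hfw, hfv]
  obtain ⟨y, hy⟩ : ∃ y : Fin 7 → ℚ⟦X⟧, y = ![wS q ^ 0 * A ^ 0, wS q ^ q * A ^ 0, wS q ^ q * A ^ 1,
    wS q ^ q * A ^ 2, wS q ^ (m + q) * A ^ 0, wS q ^ (m + q) * A ^ 1, wS q ^ (2 * m + q) * A ^ 0] :=
    ⟨_, rfl⟩
  have hyg : ((fun s : Idx t m (2 * m + q) => mon f s.1) ∘ g) = y := by
    funext i
    rw [hy]
    fin_cases i <;> exact hmon _ _
  rw [hyg, Fintype.linearIndependent_iff] at hLI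
  rw [Fintype.linearIndependent_iff]
  intro P hP
  rw [Fin.sum_univ_five] at hP
  simp only [Matrix.cons_val_zero, Matrix.cons_val_one, Matrix.cons_val, Algebra.smul_def] at hP
  have hw : wS q ^ m * wI q ^ m = 1 := by rw [← mul_pow, wS_wI, one_pow]
  have hwq : wS q ^ q * wI q ^ q = 1 := by rw [← mul_pow, wS_wI, one_pow]
  have h6 := hLI ![P 4, 4 * P 2 + P 3, -4 * P 2, P 2, 2 * P 1, - P 1, P 0] (by
    rw [Fin.sum_univ_seven, hy]
    simp only [Matrix.cons_val_zero, Matrix.cons_val_one, Matrix.cons_val, Algebra.smul_def, map_mul, map_neg,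
      map_ofNat, map_add]
    rw [GS, ← hA] at hP
    obtain ⟨p0, hp0⟩ : ∃ p0, p0 = algebraMap (Polynomial ℚ) ℚ⟦X⟧ (P 0) := ⟨_, rfl⟩
    obtain ⟨p1, hp1⟩ : ∃ p1, p1 = algebraMap (Polynomial ℚ) ℚ⟦X⟧ (P 1) := ⟨_, rfl⟩
    obtain ⟨p2, hp2⟩ : ∃ p2, p2 = algebraMap (Polynomial ℚ) ℚ⟦X⟧ (P 2) := ⟨_, rfl⟩
    obtain ⟨p3, hp3⟩ : ∃ p3, p3 = algebraMap (Polynomial ℚ) ℚ⟦X⟧ (P 3) := ⟨_, rfl⟩
    obtain ⟨p4, hp4⟩ : ∃ p4, p4 = algebraMap (Polynomial ℚ) ℚ⟦X⟧ (P 4) := ⟨_, rfl⟩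
    rw [← hp0, ← hp1, ← hp2, ← hp3, ← hp4] at hP ⊢
    obtain ⟨w, hw'⟩ : ∃ w, w = wS q ^ m := ⟨_, rfl⟩
    obtain ⟨u, hu⟩ : ∃ u, u = wI q ^ m := ⟨_, rfl⟩
    obtain ⟨z, hz⟩ : ∃ z, z = wS q ^ q := ⟨_, rfl⟩
    obtain ⟨x, hx⟩ : ∃ x, x = wI q ^ q := ⟨_, rfl⟩
    have e1 : wS q ^ (m + q) = w * z := by rw [hw', hz, ← pow_add]
    have e2 : wS q ^ (2 * m + q) = w ^ 2 * z := by
      rw [hw', hz, ← pow_mul, mul_comm m 2, ← pow_add]
    have e3 : wI q ^ (2 * m) = u ^ 2 := by rw [hu, ← pow_mul, mul_comm]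
    have e4 : wI q ^ (2 * m + q) = u ^ 2 * x := by
      rw [hu, hx, ← pow_mul, mul_comm m 2, ← pow_add]
    rw [← hw', ← hu] at hw
    rw [← hz, ← hx] at hwq
    rw [e3, e4, ← hu] at hP
    rw [e1, e2, ← hz]
    have key : w ^ 2 * z * (p0 * 1 + p1 * (u * (2 - A)) + p2 * (u * (2 - A)) ^ 2 + p3 * u ^ 2 +
        p4 * (u ^ 2 * x)) = 0 := by rw [hP, mul_zero]
    have e5 : w ^ 2 * z * (p0 * 1 + p1 * (u * (2 - A)) + p2 * (u * (2 - A)) ^ 2 + p3 * u ^ 2 +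
        p4 * (u ^ 2 * x)) = p0 * (w ^ 2 * z) + p1 * (w * z) * (w * u) * (2 - A) +
        p2 * z * (w * u) ^ 2 * (2 - A) ^ 2 + p3 * z * (w * u) ^ 2 + p4 * (w * u) ^ 2 * (z * x) := by ring
    rw [e5, hw, hwq] at key
    linear_combination key)
  intro i
  have f0 := h6 6
  have f1 := h6 5
  have f2 := h6 3
  have f3 := h6 1
  have f4 := h6 0
  simp only [Matrix.cons_val, Matrix.cons_val_zero, Matrix.cons_val_one] at f0 f1 f2 f3 f4
  fin_cases i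
  · exact f0
  · exact neg_eq_zero.1 f1
  · exact f2
  · rw [f2, mul_zero, zero_add] at f3
    exact f3
  · exact f4

/-- the five numbers -/
theorem measG5 (x : ℚ) (hx : 0 < x) (ε : ℝ) (hε : 0 < ε) : ∃ c : ℝ, 0 < c ∧ ∀ a : Fin 5 → ℤ, a ≠ 0 → ∀ A : ℝ,
    (∀ i, |(a i : ℝ)| ≤ A) → c * A ^ (-(4 + ε)) ≤
      |a 0 + a 1 * Gx x + a 2 * Gx x ^ 2 + a 3 * Real.exp (2 * x) + a 4 * Real.exp (2 * x + 1)| := by
  obtain ⟨c, m, q, hq, hc, hm, hxe⟩ := rat_eq2 x hx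
  obtain ⟨y, hy⟩ : ∃ y : Fin 5 → ℚ⟦X⟧, y = ![1, GS c m q, GS c m q ^ 2, wI q ^ (2 * m), wI q ^ (2 * m + q)] :=
    ⟨_, rfl⟩
  have hEFy : ∀ i, EF (y i) := by
    intro i
    rw [hy]
    fin_cases i
    · exact EF.one
    · exact EF_GS hq
    · exact (EF_GS hq).pow 2
    · exact (EF_wI q hq).pow _
    · exact (EF_wI q hq).pow _
  obtain ⟨C, hC, h1, h2⟩ := EF.common (y := y) hEFy
  have hps : ∀ n : ℕ, ps (n : Polynomial ℤ) = (n : ℚ⟦X⟧) := fun n => by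
    rw [ps, Polynomial.map_natCast]
    exact map_natCast (Polynomial.coeToPowerSeries.ringHom (R := ℚ)) n
  have hpsub : ∀ P Q : Polynomial ℤ, ps (P - Q) = ps P - ps Q := fun P Q => by simp [ps]
  have hD := deriv_GS (m := m) hq hc
  have hSys : ESys q C y :=
    { one_le := hC
      hq := hq
      size := h1
      den := h2
      der := by
        refine ⟨fun i j => (![![0, 0, 0, 0, 0],
          ![(q : Polynomial ℤ), (m : Polynomial ℤ) * Polynomial.X - (c : Polynomial ℤ), 0, 0, 0],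
          ![0, ((2 * q : ℕ) : Polynomial ℤ), ((2 * m : ℕ) : Polynomial ℤ) * Polynomial.X -
            ((2 * c : ℕ) : Polynomial ℤ), 0, 0],
          ![0, 0, 0, ((2 * m : ℕ) : Polynomial ℤ) * Polynomial.X, 0],
          ![0, 0, 0, 0, ((2 * m + q : ℕ) : Polynomial ℤ) * Polynomial.X]] :
            Fin 5 → Fin 5 → Polynomial ℤ) i j, fun i => ?_⟩
        rw [Fin.sum_univ_five, hy]
        fin_cases i
        · simp [ps_zero]
        · show (TQ q : ℚ⟦X⟧) * d⁄dX ℚ (GS c m q) = ps (q : Polynomial ℤ) * 1 +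
            ps ((m : Polynomial ℤ) * Polynomial.X - (c : Polynomial ℤ)) * GS c m q + ps 0 * _ +
            ps 0 * _ + ps 0 * _
          rw [ps_zero, hpsub, ps_mul, hps, hps, hps, ps_X, hD]
          ring
        · show (TQ q : ℚ⟦X⟧) * d⁄dX ℚ (GS c m q ^ 2) = ps 0 * 1 + ps ((2 * q : ℕ) : Polynomial ℤ) * GS c m q +
            ps (((2 * m : ℕ) : Polynomial ℤ) * Polynomial.X - ((2 * c : ℕ) : Polynomial ℤ)) * GS c m q ^ 2 +
            ps 0 * _ + ps 0 * _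
          rw [ps_zero, hpsub, ps_mul, hps, hps, hps, ps_X, Derivation.leibniz_pow]
          simp only [smul_eq_mul, nsmul_eq_mul]
          push_cast
          linear_combination 2 * GS c m q * hD
        · show (TQ q : ℚ⟦X⟧) * d⁄dX ℚ (wI q ^ (2 * m)) = ps 0 * 1 + ps 0 * _ + ps 0 * _ +
            ps (((2 * m : ℕ) : Polynomial ℤ) * Polynomial.X) * wI q ^ (2 * m) + ps 0 * _
          rw [ps_zero, ps_mul, hps, ps_X, deriv_wI_pow hq]
          ring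
        · show (TQ q : ℚ⟦X⟧) * d⁄dX ℚ (wI q ^ (2 * m + q)) = ps 0 * 1 + ps 0 * _ + ps 0 * _ + ps 0 * _ +
            ps (((2 * m + q : ℕ) : Polynomial ℤ) * Polynomial.X) * wI q ^ (2 * m + q)
          rw [ps_zero, ps_mul, hps, ps_X, deriv_wI_pow hq]
          ring }
  obtain ⟨c', hc', h3⟩ := E_meas hSys 0 (by rw [hy]; rfl) (by rw [hy]; exact LI5 hq hc hm) ε hε
  refine ⟨c', hc', fun a ha A hA => ?_⟩
  have h4 := h3 a ha A hA
  have e1 : -(((5 : ℕ) : ℝ) - 1 + ε) = -(4 + ε) := by push_cast; ring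
  rw [e1] at h4
  refine h4.trans (le_of_eq ?_)
  congr 1
  have hq0 : (q : ℝ) ≠ 0 := by positivity
  have hexp : ∀ k : ℕ, ev 1 (wI q ^ k) = Real.exp ((k : ℝ) / q) := by
    intro k
    rw [(EF_wI q hq).cv.ev_pow one_pos, ev_wI hq, ← Real.exp_nat_mul]
    congr 1
    ring
  rw [Fin.sum_univ_five, hy]
  show (a 0 : ℝ) * ev 1 (1 : ℚ⟦X⟧) + a 1 * ev 1 (GS c m q) + a 2 * ev 1 (GS c m q ^ 2) +
    a 3 * ev 1 (wI q ^ (2 * m)) + a 4 * ev 1 (wI q ^ (2 * m + q)) = _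
  rw [(EF_GS hq).cv.ev_pow one_pos, ev_GS hq hc, hxe, ev_one, hexp, hexp, ← hxe]
  push_cast
  have e2 : (2 * (m : ℝ)) / q = 2 * (m / q) := by ring
  have e3 : (2 * (m : ℝ) + q) / q = 2 * (m / q) + 1 := by field_simp
  rw [e2, e3, mul_one]

end Pool.Agent.V8H31.GT
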