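import Pool.Agent.V8H31.GT.Rank

/-!
# Algebraic independence of `e`, `π` and the Gaussian tail integrals
-/

set_option autoImplicit false

open Set Algebra AlgebraicIndependent

namespace Pool.Agent.V8H31.GT

open Pool.Agent.Q163.LE

variable {F : Subfield ℝ}

theorem indep_e (hF : SimLiouville F) : (matroid F ℝ).Indep {Real.exp 1} := by
  have h := rank_vals hF 0 (fun i => i.elim0) (fun i => i.elim0) (fun i => i.elim0)
  rw [range_eq_empty] at h
  have h1 : ({Real.exp 1} : Set ℝ) = insert (Real.exp 1) ∅ := by simp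
  rw [Matroid.indep_iff_eRk_eq_encard_of_finite (finite_singleton _), h1]
  refine le_antisymm (Matroid.eRk_le_encard _ _) ?_
  rw [← h1, encard_singleton, h1]
  simpa using h

/-- **(1)** all but one of finitely many of the numbers can be chosen algebraically independent,
together with `e` -/
theorem choose_indep (hF : SimLiouville F) (J : Finset (Option T)) :
    ∃ J' ⊆ J, J.card ≤ J'.card + 1 ∧
      AlgebraicIndependent F (fun o : Option J' => o.elim (Real.exp 1) fun j => number j) := by
  classical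
  obtain ⟨X, hX⟩ : ∃ X : Set ℝ, X = insert (Real.exp 1) (number '' (J : Set (Option T))) := ⟨_, rfl⟩
  have hXf : X.Finite := by
    rw [hX]
    exact (J.finite_toSet.image _).insert _
  obtain ⟨B, hB, heB⟩ := (indep_e hF).subset_isBasis_of_subset (X := X) (by
    rw [hX]; exact singleton_subset_iff.2 (mem_insert _ _))
  have hrank := rank_number hF J
  rw [← hX, ← hB.encard_eq_eRk] at hrank
  have hBf : B.Finite := hXf.subset hB.subset
  have hsec : ∀ y : ℝ, ∃ o : Option T, y ∈ B → y ≠ Real.exp 1 → o ∈ J ∧ number o = y := by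
    intro y
    by_cases hy : y ∈ B ∧ y ≠ Real.exp 1
    · have h1 := hB.subset hy.1
      rw [hX] at h1
      rcases h1 with h1 | ⟨o, ho, h2⟩
      · exact absurd h1 hy.2
      · exact ⟨o, fun _ _ => ⟨ho, h2⟩⟩
    · exact ⟨none, fun h1 h2 => absurd ⟨h1, h2⟩ hy⟩
  choose s hs using hsec
  obtain ⟨B', hB'⟩ : ∃ B' : Finset ℝ, B' = hBf.toFinset.erase (Real.exp 1) := ⟨_, rfl⟩
  have hB'mem : ∀ y ∈ B', y ∈ B ∧ y ≠ Real.exp 1 := by
    intro y hy
    rw [hB', Finset.mem_erase, Set.Finite.mem_toFinset] at hy
    exact ⟨hy.2, hy.1⟩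
  have hcard : J.card ≤ B'.card + 1 := by
    have h1 : B.encard = (hBf.toFinset.card : ℕ∞) := hBf.encard_eq_coe_toFinset_card
    rw [h1] at hrank
    have h2 : J.card ≤ hBf.toFinset.card := by exact_mod_cast hrank
    rw [hB', Finset.card_erase_of_mem (by
      rw [Set.Finite.mem_toFinset]; exact heB (mem_singleton _))]
    omega
  refine ⟨B'.image s, ?_, ?_, ?_⟩
  · intro o ho
    obtain ⟨y, hy, rfl⟩ := Finset.mem_image.1 ho
    exact (hs y (hB'mem y hy).1 (hB'mem y hy).2).1
  · rw [Finset.card_image_of_injOn]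
    · exact hcard
    · intro y hy y' hy' h
      rw [← (hs y (hB'mem y hy).1 (hB'mem y hy).2).2, ← (hs y' (hB'mem y' hy').1 (hB'mem y' hy').2).2, h]
  · have hval : ∀ j ∈ B'.image s, number j ∈ B ∧ number j ≠ Real.exp 1 ∧ s (number j) = j := by
      intro j hj
      obtain ⟨y, hy, rfl⟩ := Finset.mem_image.1 hj
      obtain ⟨h1, h2⟩ := hB'mem y hy
      rw [(hs y h1 h2).2]
      exact ⟨h1, h2, rfl⟩
    have hind : AlgebraicIndependent F (fun b : B => (b : ℝ)) := hB.indep
    have hmem : ∀ o : Option (B'.image s), (o.elim (Real.exp 1) fun j => number j) ∈ B := by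
      intro o
      rcases o with _ | j
      · exact heB (mem_singleton _)
      · exact (hval j j.2).1
    have hcomp := hind.comp (fun o : Option (B'.image s) => (⟨_, hmem o⟩ : B)) (by
      intro o o' ho
      have ho' := congrArg Subtype.val ho
      rcases o with _ | j <;> rcases o' with _ | j'
      · rfl
      · exact absurd ho'.symm (hval j' j'.2).2.1
      · exact absurd ho' (hval j j.2).2.1
      · have h3 : number j = number j' := ho'
        congr 1
        apply Subtype.ext
        rw [← (hval j j.2).2.2, h3, (hval j' j'.2).2.2])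
    exact hcomp

/-- **(2)** -/
theorem indep_or (hF : SimLiouville F) : AlgebraicIndependent F ![Real.exp 1, Real.pi] ∨
    AlgebraicIndependent F (fun o : Option T => o.elim (Real.exp 1) fun t => tail t) := by
  classical
  by_contra hcon
  push Not at hcon
  obtain ⟨h1, h2⟩ := hcon
  apply h2
  refine algebraicIndependent_of_finite_type fun t ht => ?_
  obtain ⟨T₁, hT₁⟩ : ∃ T₁ : Finset T, T₁ = (ht.toFinset).eraseNone := ⟨_, rfl⟩
  obtain ⟨J', hJ', hcard, hind⟩ := choose_indep hF (Finset.insertNone T₁)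
  have hnone : none ∉ J' := by
    intro hn
    apply h1
    have h3 := hind.comp ![none, some ⟨none, hn⟩] (by
      intro i j hij
      fin_cases i <;> fin_cases j <;> simp at hij ⊢)
    convert h3 using 1
    funext i
    fin_cases i <;> rfl
  have hsub : J' ⊆ T₁.map Function.Embedding.some := by
    intro o ho
    have h3 := hJ' ho
    rcases o with _ | o
    · exact absurd ho hnone
    · rw [Finset.some_mem_insertNone] at h3
      exact Finset.mem_map_of_mem _ h3
  have heq : J' = T₁.map Function.Embedding.some := by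
    refine Finset.eq_of_subset_of_card_le hsub ?_
    rw [Finset.card_map]
    rw [Finset.card_insertNone] at hcard
    omega
  have hmem : ∀ u : T, some u ∈ t → some u ∈ J' := by
    intro u hu
    rw [heq]
    refine Finset.mem_map_of_mem _ ?_
    rw [hT₁, Finset.mem_eraseNone, Set.Finite.mem_toFinset]
    exact hu
  have hg : ∀ i : t, ∃ o : Option J',
      (o.elim (Real.exp 1) fun j => number j) = ((i : Option T).elim (Real.exp 1) fun u => tail u) ∧
        o.map (fun j => (j : Option T)) = (i : Option T).map some := by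
    rintro ⟨i, hi⟩
    rcases i with _ | u
    · exact ⟨none, rfl, rfl⟩
    · exact ⟨some ⟨some u, hmem u hi⟩, rfl, rfl⟩
  choose g hg1 hg2 using hg
  have h3 := hind.comp g (by
    intro i i' hii
    apply Subtype.ext
    have h4 := hg2 i
    rw [hii, hg2 i'] at h4
    exact (Option.map_injective (Option.some_injective T) h4).symm)
  convert h3 using 1
  funext i
  exact (hg1 i).symm

/-- a set of indices for a basis -/
theorem choose_basis {ι : Type} [Nonempty ι] (f : ι → ℝ) (J : Finset ι) (n : ℕ)
    (h : (n : ℕ∞) ≤ (matroid F ℝ).eRk (f '' (J : Set ι))) :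
    ∃ J' ⊆ J, n ≤ J'.card ∧ AlgebraicIndependent F (fun j : J' => f j) := by
  classical
  obtain ⟨B, hB⟩ := (matroid F ℝ).exists_isBasis (f '' (J : Set ι))
  rw [← hB.encard_eq_eRk] at h
  have hBf : B.Finite := (J.finite_toSet.image f).subset hB.subset
  obtain ⟨i₀⟩ := ‹Nonempty ι›
  have hsec : ∀ y : ℝ, ∃ o : ι, y ∈ B → o ∈ J ∧ f o = y := by
    intro y
    by_cases hy : y ∈ B
    · obtain ⟨o, ho, h2⟩ := hB.subset hy
      exact ⟨o, fun _ => ⟨ho, h2⟩⟩
    · exact ⟨i₀, fun h1 => absurd h1 hy⟩
  choose s hs using hsec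
  have hmem : ∀ y ∈ hBf.toFinset, y ∈ B := fun y hy => (Set.Finite.mem_toFinset _).1 hy
  refine ⟨hBf.toFinset.image s, ?_, ?_, ?_⟩
  · intro o ho
    obtain ⟨y, hy, rfl⟩ := Finset.mem_image.1 ho
    exact (hs y (hmem y hy)).1
  · rw [Finset.card_image_of_injOn]
    · rw [hBf.encard_eq_coe_toFinset_card] at h
      exact_mod_cast h
    · intro y hy y' hy' h
      rw [← (hs y (hmem y hy)).2, ← (hs y' (hmem y' hy')).2, h]
  · have hval : ∀ j ∈ hBf.toFinset.image s, f j ∈ B ∧ s (f j) = j := by
      intro j hj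
      obtain ⟨y, hy, rfl⟩ := Finset.mem_image.1 hj
      rw [(hs y (hmem y hy)).2]
      exact ⟨hmem y hy, rfl⟩
    have hind : AlgebraicIndependent F (fun b : B => (b : ℝ)) := hB.indep
    have hcomp := hind.comp (fun o : (hBf.toFinset.image s : Finset ι) => (⟨f o, (hval o o.2).1⟩ : B)) (by
      intro o o' ho
      have ho' : f o = f o' := congrArg Subtype.val ho
      apply Subtype.ext
      rw [← (hval o o.2).2, ho', (hval o' o'.2).2])
    exact hcomp

/-- the numbers `π + e`, `π - e` and the tail integrals -/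
noncomputable def number2 : Option (Option T) → ℝ
  | none => Real.pi + Real.exp 1
  | some none => Real.pi - Real.exp 1
  | some (some t) => tail t

/-- the rank of the numbers -/
theorem rank_number2 (hF : SimLiouville F) (J : Finset (Option (Option T))) :
    (J.card : ℕ∞) ≤ (matroid F ℝ).eRk (number2 '' (J : Set (Option (Option T)))) + 1 := by
  classical
  obtain ⟨M, hM⟩ : ∃ M, M = matroid F ℝ := ⟨_, rfl⟩
  obtain ⟨S, hS⟩ : ∃ S, S = number2 '' (J : Set (Option (Option T))) := ⟨_, rfl⟩
  obtain ⟨J₀, hJ₀⟩ : ∃ J₀ : Finset (Option T), J₀ = J.eraseNone := ⟨_, rfl⟩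
  obtain ⟨J₁, hJ₁⟩ : ∃ J₁ : Finset T, J₁ = J₀.eraseNone := ⟨_, rfl⟩
  have hmem : ∀ t, t ∈ J₁ → some (some t) ∈ J := fun t ht => by
    rw [hJ₁, Finset.mem_eraseNone, hJ₀, Finset.mem_eraseNone] at ht
    exact ht
  have hn0 : none ∈ J₀ ↔ some none ∈ J := by rw [hJ₀, Finset.mem_eraseNone]
  have hc0 : J₀.card = (J.erase none).card := by
    rw [hJ₀, ← Finset.map_some_eraseNone, Finset.card_map]
  have hc1 : J₁.card = (J₀.erase none).card := by
    rw [hJ₁, ← Finset.map_some_eraseNone, Finset.card_map]
  have h1 := rank_tails hF J₁.card (fun i => (J₁.equivFin.symm i : T)) (fun i j hij =>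
    J₁.equivFin.symm.injective (Subtype.ext hij))
  obtain ⟨U, hU⟩ : ∃ U, U = range fun i : Fin J₁.card => tail ((J₁.equivFin.symm i : T) : ℝ) := ⟨_, rfl⟩
  rw [← hU, ← hM] at h1
  rw [← hM, ← hS]
  have hsub : U ⊆ S := by
    rw [hU, hS]
    rintro y ⟨i, rfl⟩
    exact ⟨some (some (J₁.equivFin.symm i : T)), hmem _ (J₁.equivFin.symm i).2, rfl⟩
  -- a set whose closure contains `e`, `π` and `U`
  have key : ∀ V : Set ℝ, U ⊆ V → IsAlgebraic (adjoin F V) (Real.exp 1) →
      IsAlgebraic (adjoin F V) Real.pi → (J₁.card : ℕ∞) + 1 ≤ M.eRk V := by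
    intro V hUV he hp
    rw [← Matroid.eRk_closure_eq]
    refine h1.trans (Matroid.eRk_mono _ ?_)
    rw [hM]
    refine insert_subset ((mem_cl F).2 he) (insert_subset ((mem_cl F).2 hp) fun y hy => ?_)
    exact (mem_cl F).2 (alg_mem F (hUV hy))
  have h2r : ∀ V : Set ℝ, IsAlgebraic (adjoin F V) ((2 : ℝ)⁻¹) := fun V => by
    have := alg_rat F V (1 / 2)
    norm_num at this
    rwa [one_div] at this
  by_cases ha : none ∈ J <;> by_cases hb : some none ∈ J
  · have hyp : IsAlgebraic (adjoin F S) (Real.pi + Real.exp 1) :=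
      alg_mem F (by rw [hS]; exact ⟨none, ha, rfl⟩)
    have hym : IsAlgebraic (adjoin F S) (Real.pi - Real.exp 1) :=
      alg_mem F (by rw [hS]; exact ⟨some none, hb, rfl⟩)
    have h3 := key S hsub (by
      have e : Real.exp 1 = ((Real.pi + Real.exp 1) - (Real.pi - Real.exp 1)) * 2⁻¹ := by ring
      rw [e]
      exact (hyp.sub hym).mul (h2r S)) (by
      have e : Real.pi = ((Real.pi + Real.exp 1) + (Real.pi - Real.exp 1)) * 2⁻¹ := by ring
      rw [e]
      exact (hyp.add hym).mul (h2r S))
    have hcard : J.card ≤ J₁.card + 1 + 1 := by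
      rw [hc1, Finset.card_erase_of_mem (hn0.2 hb), hc0, Finset.card_erase_of_mem ha]
      omega
    refine le_trans ?_ (add_le_add_left h3 1)
    exact_mod_cast hcard
  · have h3 := key (insert (Real.exp 1) S) (hsub.trans (subset_insert _ _))
      (alg_mem F (mem_insert _ _)) (by
      have e : Real.pi = (Real.pi + Real.exp 1) - Real.exp 1 := by ring
      rw [e]
      exact (alg_mem F (mem_insert_of_mem _ (by rw [hS]; exact ⟨none, ha, rfl⟩))).sub
        (alg_mem F (mem_insert _ _)))
    have h4 := h3.trans (Matroid.eRk_insert_le_add_one _ _ _)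
    have hcard : J.card ≤ J₁.card + 1 := by
      rw [hc1, Finset.erase_eq_of_notMem (fun h => hb (hn0.1 h)), hc0, Finset.card_erase_of_mem ha]
      omega
    refine le_trans ?_ h4
    exact_mod_cast hcard
  · have h3 := key (insert (Real.exp 1) S) (hsub.trans (subset_insert _ _))
      (alg_mem F (mem_insert _ _)) (by
      have e : Real.pi = (Real.pi - Real.exp 1) + Real.exp 1 := by ring
      rw [e]
      exact (alg_mem F (mem_insert_of_mem _ (by rw [hS]; exact ⟨some none, hb, rfl⟩))).add
        (alg_mem F (mem_insert _ _)))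
    have h4 := h3.trans (Matroid.eRk_insert_le_add_one _ _ _)
    have hcard : J.card ≤ J₁.card + 1 := by
      rw [hc1, Finset.card_erase_of_mem (hn0.2 hb), hc0, Finset.erase_eq_of_notMem ha]
      omega
    refine le_trans ?_ h4
    exact_mod_cast hcard
  · have h3 := key (insert (Real.exp 1) (insert Real.pi S))
      (hsub.trans ((subset_insert _ _).trans (subset_insert _ _)))
      (alg_mem F (mem_insert _ _)) (alg_mem F (by simp))
    have h4 := h3.trans (Matroid.eRk_insert_le_add_one _ _ _)
    have h5 : (J₁.card : ℕ∞) ≤ M.eRk (insert Real.pi S) :=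
      (ENat.add_le_add_iff_right ENat.one_ne_top).1 h4
    have h6 := h5.trans (Matroid.eRk_insert_le_add_one _ _ _)
    have hcard : J.card ≤ J₁.card := by
      rw [hc1, Finset.erase_eq_of_notMem (fun h => hb (hn0.1 h)), hc0, Finset.erase_eq_of_notMem ha]
    refine le_trans ?_ h6
    exact_mod_cast hcard

/-- **(2)** all but one of finitely many of the numbers `π + e`, `π - e`, `I(t)` can be chosen
algebraically independent -/
theorem choose_number2 (hF : SimLiouville F) (J : Finset (Option (Option T))) :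
    ∃ J' ⊆ J, J.card ≤ J'.card + 1 ∧ AlgebraicIndependent F (fun j : J' => number2 j) := by
  have h := rank_number2 hF J
  obtain ⟨J', h1, h2, h3⟩ := choose_basis (F := F) number2 J (J.card - 1) (by
    rcases Nat.eq_zero_or_pos J.card with h0 | h0
    · rw [h0]; simp
    · obtain ⟨m, hm⟩ : ∃ m, J.card = m + 1 := ⟨J.card - 1, by omega⟩
      rw [hm] at h ⊢
      rw [Nat.add_sub_cancel]
      push_cast at h
      exact (ENat.add_le_add_iff_right ENat.one_ne_top).1 h)
  exact ⟨J', h1, by omega, h3⟩

/-- **(3)** -/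
theorem tails_of_alg (hF : SimLiouville F)
    (h : ∃ P : MvPolynomial (Fin 2) F, P ≠ 0 ∧ MvPolynomial.aeval ![Real.exp 1, Real.pi] P = 0) :
    AlgebraicIndependent F (fun o : Option T => o.elim (Real.exp 1) fun t => tail t) := by
  refine (indep_or hF).resolve_left fun h1 => ?_
  obtain ⟨P, hP, h2⟩ := h
  exact hP ((algebraicIndependent_iff.1 h1) P h2)

end Pool.Agent.V8H31.GT
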