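import Pool.Agent.V8H31.GT.Tail
import Pool.Agent.V8H31.GT.Indep

/-!
# Algebraic independence of the tail integrals: the rank
-/

set_option autoImplicit false

open Set Algebra AlgebraicIndependent

namespace Pool.Agent.V8H31.GT

open Pool.Agent.Q163.LE Pool.Agent.N743.SS Pool.Agent.R352.T

/-- the values for finitely many rational numbers -/
theorem measM_vals (k : ℕ) (x : Fin k → ℚ) (hx : ∀ i, 0 < x i) (hinj : Function.Injective x) :
    ∃ q : ℕ, 1 ≤ q ∧ MeasM (fun o : Option (Fin k) =>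
      o.elim (Real.exp (-1 / q)) (fun i => EA (1 / 2) 1 (x i))) := by
  obtain ⟨h, hh⟩ : ∃ h, h = ∏ i, (x i).den := ⟨_, rfl⟩
  have hh1 : 1 ≤ h := by
    rw [hh]
    exact Nat.one_le_iff_ne_zero.2 (Finset.prod_ne_zero_iff.2 fun i _ => (x i).den_ne_zero)
  have hdvd : ∀ i, (x i).den ∣ 2 * h := fun i => by
    rw [hh]
    exact (Finset.dvd_prod_of_mem _ (Finset.mem_univ i)).mul_left 2
  have hq1 : 1 ≤ 2 * h := by omega
  have hm : ∀ i, ∃ m : ℕ, 1 ≤ m ∧ (m : ℝ) / ((2 * h : ℕ) : ℝ) = x i := fun i =>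
    nat_of_den (x i) (hx i) _ (hdvd i) hq1
  choose m hm1 hm2 using hm
  have hminj : ∀ i i', m i = m i' → h = h → i = i' := by
    intro i i' he _
    apply hinj
    have h1 : ((x i : ℚ) : ℝ) = x i' := by rw [← hm2, ← hm2, he]
    exact_mod_cast h1
  have hmeas := measM_EA 1 k m (fun _ => h) hminj hm1 hq1 (fun _ => by omega)
  refine ⟨2 * h, hq1, ?_⟩
  have h2 := hmeas.comp (fun o : Option (Fin k) => o.map fun i => ((0 : Fin 1), i)) (by
    intro o o' ho
    rcases o with _ | i <;> rcases o' with _ | i' <;> simp at ho ⊢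
    exact ho)
  convert h2 using 1
  funext o
  rcases o with _ | i
  · rfl
  · show EA (1 / 2) 1 (x i) = EA ((h : ℝ) / ((2 * h : ℕ) : ℝ)) (0 + 1) ((m i : ℝ) / ((2 * h : ℕ) : ℝ))
    rw [hm2]
    congr 1
    push_cast
    have : (h : ℝ) ≠ 0 := by
      have : h ≠ 0 := by omega
      exact_mod_cast this
    field_simp

section

variable (F : Subfield ℝ)

theorem mem_cl {S : Set ℝ} {a : ℝ} : a ∈ (matroid F ℝ).closure S ↔ IsAlgebraic (adjoin F S) a := by
  rw [matroid_closure_eq, SetLike.mem_coe, Subalgebra.mem_algebraicClosure]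

theorem alg_F {S : Set ℝ} {a : ℝ} (ha : IsAlgebraic F a) : IsAlgebraic (adjoin F S) a :=
  ha.extendScalars (algebraMap F (adjoin F S)).injective

theorem alg_rat (S : Set ℝ) (r : ℚ) : IsAlgebraic (adjoin F S) (r : ℝ) := by
  have h : (r : ℝ) = algebraMap F ℝ (r : F) := by
    rw [map_ratCast]
  rw [h]
  exact alg_F F (isAlgebraic_algebraMap _)

theorem alg_mem {S : Set ℝ} {a : ℝ} (ha : a ∈ S) : IsAlgebraic (adjoin F S) a :=
  isAlgebraic_algebraMap (⟨a, subset_adjoin ha⟩ : adjoin F S)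

theorem alg_sq {S : Set ℝ} {a : ℝ} (ha : IsAlgebraic (adjoin F S) (a ^ 2)) :
    IsAlgebraic (adjoin F S) a := IsAlgebraic.of_pow (by norm_num) ha

variable {F}

/-- the rank of `e` and the values of the E-function -/
theorem rank_vals (hF : SimLiouville F) (k : ℕ) (x : Fin k → ℚ) (hx : ∀ i, 0 < x i)
    (hinj : Function.Injective x) : (k : ℕ∞) + 1 ≤
      (matroid F ℝ).eRk (insert (Real.exp 1) (range fun i => EA (1 / 2) 1 (x i))) := by
  obtain ⟨q, hq, hM⟩ := measM_vals k x hx hinj
  have hind := algInd_of_measM hM hF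
  have hI : (matroid F ℝ).Indep (range (fun o : Option (Fin k) =>
      o.elim (Real.exp (-1 / q)) (fun i => EA (1 / 2) 1 (x i)))) := hind.coe_range
  have h1 := hI.eRk_eq_encard
  have h2 : (k : ℕ∞) + 1 ≤ (range (fun o : Option (Fin k) =>
      o.elim (Real.exp (-1 / q)) (fun i => EA (1 / 2) 1 (x i)))).encard := by
    have h3 := (hind.injective).encard_range
    refine le_trans (le_of_eq ?_) h3
    rw [ENat.card_eq_coe_fintype_card, Fintype.card_option, Fintype.card_fin]
    push_cast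
    rfl
  rw [← h1] at h2
  refine h2.trans ?_
  rw [← Matroid.eRk_closure_eq _ (insert _ _)]
  refine Matroid.eRk_mono _ ?_
  rintro y ⟨o, rfl⟩
  rw [mem_cl]
  rcases o with _ | i
  · show IsAlgebraic _ (Real.exp (-1 / q))
    have h3 : Real.exp (-1 / q) ^ q = (Real.exp 1)⁻¹ := by
      rw [← Real.exp_nat_mul, ← Real.exp_neg]
      congr 1
      have : (q : ℝ) ≠ 0 := by positivity
      field_simp
    refine IsAlgebraic.of_pow (n := q) (by omega) ?_
    rw [h3]
    exact (alg_mem F (mem_insert _ _)).inv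
  · exact alg_mem F (mem_insert_of_mem _ ⟨i, rfl⟩)

/-- the positive real numbers with a rational square -/
abbrev T := {t : ℝ // 0 < t ∧ ∃ r : ℚ, t ^ 2 = r}

/-- `π` and the tail integrals -/
noncomputable def number (o : Option T) : ℝ := o.elim Real.pi fun t => tail t

theorem rank_tails (hF : SimLiouville F) (k : ℕ) (t : Fin k → T) (ht : Function.Injective t) :
    (k : ℕ∞) + 1 ≤ (matroid F ℝ).eRk
      (insert (Real.exp 1) (insert Real.pi (range fun i => tail (t i)))) := by
  have hr : ∀ i, ∃ r : ℚ, ((t i : ℝ)) ^ 2 / 2 = r ∧ 0 < r := by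
    intro i
    obtain ⟨r, hr⟩ := (t i).2.2
    have h0 := (t i).2.1
    refine ⟨r / 2, ?_, ?_⟩
    · rw [hr]; push_cast; ring
    · have : (0 : ℝ) < r := by rw [← hr]; positivity
      have : 0 < r := by exact_mod_cast this
      linarith
  choose x hx hx0 using hr
  have hinj : Function.Injective x := by
    intro i j hij
    apply ht
    apply Subtype.ext
    have h1 : ((t i : ℝ)) ^ 2 / 2 = (t j : ℝ) ^ 2 / 2 := by rw [hx, hx, hij]
    have h2 := (t i).2.1
    have h3 := (t j).2.1
    nlinarith [sq_nonneg ((t i : ℝ) - t j), sq_nonneg ((t i : ℝ) + t j)]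
  refine (rank_vals hF k x hx0 hinj).trans ?_
  rw [← Matroid.eRk_closure_eq _ (insert _ (insert _ _))]
  refine Matroid.eRk_mono _ ?_
  rintro y (rfl | ⟨i, rfl⟩)
  · rw [mem_cl]
    exact alg_mem F (mem_insert _ _)
  · rw [mem_cl]
    obtain ⟨S, hS⟩ : ∃ S : Set ℝ, S = insert (Real.exp 1) (insert Real.pi (range fun i => tail (t i))) :=
      ⟨_, rfl⟩
    rw [← hS]
    have ht0 := (t i).2.1
    have h1 := tail_rel ht0
    rw [hx] at h1
    have hp : IsAlgebraic (adjoin F S) Real.pi := alg_mem F (by rw [hS]; simp)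
    have hsp : IsAlgebraic (adjoin F S) (√Real.pi) := alg_sq F (by rwa [Real.sq_sqrt Real.pi_pos.le])
    have hs2 : IsAlgebraic (adjoin F S) (√2) := alg_sq F (by
      rw [Real.sq_sqrt (by norm_num)]
      exact_mod_cast alg_rat F S 2)
    have htt : IsAlgebraic (adjoin F S) (t i : ℝ) := alg_sq F (by
      obtain ⟨r, hr⟩ := (t i).2.2
      rw [hr]
      exact alg_rat F S r)
    have htl : IsAlgebraic (adjoin F S) (tail (t i)) := alg_mem F (by rw [hS]; simp)
    have hxi : IsAlgebraic (adjoin F S) (x i : ℝ) := alg_rat F S _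
    have h2 : IsAlgebraic (adjoin F S) (2 : ℝ) := by exact_mod_cast alg_rat F S 2
    have hx0' : (x i : ℝ) ≠ 0 := by exact_mod_cast (hx0 i).ne'
    have e : EA (1 / 2) 1 (x i) = 2 - (√Real.pi * ((t i : ℝ) * (√2)⁻¹) - t i * tail (t i)) * (x i : ℝ)⁻¹ := by
      have h3 : (t i : ℝ) * (√2)⁻¹ = t i / √2 := by rw [div_eq_mul_inv]
      rw [h3, h1]
      field_simp
      ring
    show IsAlgebraic (adjoin F S) (EA (1 / 2) 1 (x i))
    rw [e]
    exact h2.sub (((hsp.mul (htt.mul hs2.inv)).sub (htt.mul htl)).mul hxi.inv)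

/-- **the rank of the numbers** -/
theorem rank_number (hF : SimLiouville F) (J : Finset (Option T)) :
    (J.card : ℕ∞) ≤ (matroid F ℝ).eRk (insert (Real.exp 1) (number '' (J : Set (Option T)))) := by
  classical
  obtain ⟨J₁, hJ₁⟩ : ∃ J₁ : Finset T, J₁ = J.eraseNone := ⟨_, rfl⟩
  have hmem : ∀ t, t ∈ J₁ → some t ∈ J := fun t ht => by
    rw [hJ₁, Finset.mem_eraseNone] at ht
    exact ht
  have hcard0 : J₁.card = (J.erase none).card := by
    rw [hJ₁, ← Finset.map_some_eraseNone, Finset.card_map]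
  have h1 := rank_tails hF J₁.card (fun i => (J₁.equivFin.symm i : T)) (fun i j hij =>
    J₁.equivFin.symm.injective (Subtype.ext hij))
  have hsub : (range fun i : Fin J₁.card => tail ((J₁.equivFin.symm i : T) : ℝ)) ⊆
      number '' (J : Set (Option T)) := by
    rintro y ⟨i, rfl⟩
    exact ⟨some (J₁.equivFin.symm i : T), hmem _ (J₁.equivFin.symm i).2, rfl⟩
  by_cases hn : none ∈ J
  · refine le_trans ?_ (h1.trans (Matroid.eRk_mono _ ?_))
    · have hcard : J.card ≤ J₁.card + 1 := by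
        rw [hcard0, Finset.card_erase_of_mem hn]
        omega
      exact_mod_cast hcard
    · exact insert_subset_insert (insert_subset ⟨none, hn, rfl⟩ hsub)
  · have hcard' : J.card ≤ J₁.card := by
      rw [hcard0, Finset.erase_eq_of_notMem hn]
    have hs2 : insert (Real.exp 1) (insert Real.pi
        (range fun i : Fin J₁.card => tail ((J₁.equivFin.symm i : T) : ℝ))) ⊆ insert Real.pi
        (insert (Real.exp 1) (number '' (J : Set (Option T)))) := by
      rw [insert_comm]
      exact insert_subset_insert (insert_subset_insert hsub)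
    have h2 := h1.trans (Matroid.eRk_mono (matroid F ℝ) hs2)
    have h3 := h2.trans (Matroid.eRk_insert_le_add_one _ _ _)
    have h4 : (J₁.card : ℕ∞) ≤
        (matroid F ℝ).eRk (insert (Real.exp 1) (number '' (J : Set (Option T)))) :=
      (ENat.add_le_add_iff_right ENat.one_ne_top).1 h3
    refine le_trans ?_ h4
    exact_mod_cast hcard'

end

end Pool.Agent.V8H31.GT
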