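import Pool.Agent.N743.SS.PiK

/-!
# The Gaussian tail integrals
-/

set_option autoImplicit false

open Filter Topology Set MeasureTheory

namespace Pool.Agent.V8H31.GT

open Pool.Agent.R352.T Pool.Agent.N743.SS

/-- the integral of `exp (-u ^ 2 / 2)` over `u > t` -/
noncomputable def tail (t : ℝ) : ℝ := ∫ u in Ioi t, Real.exp (-u ^ 2 / 2)

/-- `t I(t) = e^(-x) R(x)` for `x = t ^ 2 / 2` -/
theorem tail_mil {t : ℝ} (ht : 0 < t) : t * tail t = Real.exp (-(t ^ 2 / 2)) * mil (t ^ 2 / 2) := by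
  have hx : 0 < t ^ 2 / 2 := by positivity
  rw [mil_mills hx, tail]
  have h1 : ∫ u in Ioi t, Real.exp (-u ^ 2 / 2) = t * ∫ v in Ioi (1 : ℝ), Real.exp (-(t * v) ^ 2 / 2) := by
    have h := integral_comp_mul_left_Ioi (fun u : ℝ => Real.exp (-u ^ 2 / 2)) 1 ht
    rw [mul_one, smul_eq_mul] at h
    rw [h]
    field_simp
  have h2 : ∫ v in Ioi (1 : ℝ), Real.exp (-(t * v) ^ 2 / 2) =
      ∫ v in Ioi (0 : ℝ), Real.exp (-(t * (v + 1)) ^ 2 / 2) := by
    have h := (measurePreserving_add_right volume (1 : ℝ)).setIntegral_preimage_emb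
      (measurableEmbedding_addRight (1 : ℝ)) (fun v : ℝ => Real.exp (-(t * v) ^ 2 / 2)) (Ioi 1)
    rw [← h]
    congr 2
    ext v
    simp
  have h3 : ∫ v in Ioi (0 : ℝ), Real.exp (-(t * (v + 1)) ^ 2 / 2) =
      Real.exp (-(t ^ 2 / 2)) * ∫ v in Ioi (0 : ℝ), Real.exp (-(t ^ 2 / 2 * (2 * v + v ^ 2))) := by
    rw [← integral_const_mul]
    congr 1
    funext v
    rw [← Real.exp_add]
    congr 1
    ring
  rw [h1, h2, h3]
  ring

/-- the relation between `π`, the tail integral and the value of an E-function -/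
theorem tail_rel {t : ℝ} (ht : 0 < t) :
    √Real.pi * (t / √2) = t ^ 2 / 2 * (2 - EA (1 / 2) 1 (t ^ 2 / 2)) + t * tail t := by
  have hx : 0 < t ^ 2 / 2 := by positivity
  have h := mil_sqrt hx
  rw [← tail_mil ht] at h
  rw [← h]
  congr 1
  rw [Real.sqrt_div' _ (by norm_num), Real.sqrt_sq ht.le]

end Pool.Agent.V8H31.GT
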